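import Mathlib

/-! # Stabilizer rank: functions on finite spaces over the field with two elements -/

namespace H650SR

open Finset

noncomputable section

theorem zc (t : ZMod 2) : t = 0 ∨ t = 1 := by revert t; decide

/-- the sign of a bit -/
def sgn (t : ZMod 2) : ℂ := if t = 0 then 1 else -1

theorem sgn_zero : sgn 0 = 1 := by simp [sgn]

theorem sgn_one : sgn 1 = -1 := by
  have h : (1 : ZMod 2) ≠ 0 := by decide
  simp [sgn, h]

theorem one_add_one_Z : (1 : ZMod 2) + 1 = 0 := by decide

theorem sgn_add (s t : ZMod 2) : sgn (s + t) = sgn s * sgn t := by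
  rcases zc s with rfl | rfl <;> rcases zc t with rfl | rfl <;>
    simp [sgn_zero, sgn_one, one_add_one_Z]

theorem sgn_mul_self (s : ZMod 2) : sgn s * sgn s = 1 := by
  rcases zc s with rfl | rfl <;> simp [sgn_zero, sgn_one]

theorem sgn_ne_zero (s : ZMod 2) : sgn s ≠ 0 := by
  rcases zc s with rfl | rfl <;> simp [sgn_zero, sgn_one]

section gen
variable {E : Type} [AddCommGroup E] [Module (ZMod 2) E]

theorem add_self_z (x : E) : x + x = 0 := by
  have h : (2 : ZMod 2) • x = 0 := by
    have : (2 : ZMod 2) = 0 := by decide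
    rw [this, zero_smul]
  rwa [two_smul] at h

/-- The Pauli operators (up to phase: translation by `p.1`, then the sign character `p.2`)
that have `f` as an eigenvector. -/
def Stb (f : E → ℂ) : Submodule (ZMod 2) (E × Module.Dual (ZMod 2) E) where
  carrier := {p | ∃ c : ℂ, ∀ x, sgn (p.2 x) * f (x + p.1) = c * f x}
  add_mem' := by
    rintro ⟨a, α⟩ ⟨b, β⟩ ⟨c, hc⟩ ⟨d, hd⟩
    refine ⟨c * d * sgn (β a), fun x => ?_⟩
    have h1 := hc x
    have h2 := hd (x + a)
    simp only [Prod.mk_add_mk, LinearMap.add_apply, sgn_add, map_add] at *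
    have h3 : sgn (β a) * sgn (β a) = 1 := sgn_mul_self _
    rw [← add_assoc]
    calc sgn (α x) * sgn (β x) * f (x + a + b)
        = sgn (α x) * (sgn (β x) * sgn (β a) * f (x + a + b)) * sgn (β a) := by
          linear_combination (-(sgn (α x) * sgn (β x) * f (x + a + b))) * h3
      _ = (sgn (α x) * f (x + a)) * d * sgn (β a) := by rw [h2]; ring
      _ = _ := by rw [h1]; ring
  zero_mem' := ⟨1, fun x => by simp [sgn]⟩
  smul_mem' := by
    rintro t ⟨a, α⟩ ⟨c, hc⟩
    rcases zc t with rfl | rfl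
    · exact ⟨1, fun x => by simp [sgn]⟩
    · exact ⟨c, fun x => by simpa using hc x⟩

theorem mem_Stb {f : E → ℂ} {p : E × Module.Dual (ZMod 2) E} :
    p ∈ Stb f ↔ ∃ c : ℂ, ∀ x, sgn (p.2 x) * f (x + p.1) = c * f x := Iff.rfl

/-- Generalised stabilizer states (zero and all scalar multiples included): the group of the
Pauli operators (modulo phases) that have `f` as an eigenvector has dimension at least that of `E`. -/
def IsS (f : E → ℂ) : Prop :=
  Module.finrank (ZMod 2) E ≤ Module.finrank (ZMod 2) (Stb f)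

end gen

/-- the vector `e_0 + √2 e_1` -/
def vv (t : ZMod 2) : ℂ := if t = 0 then 1 else (Real.sqrt 2 : ℂ)

/-- `G` is obtained from at most `c` copies of `vv` by contracting with a generalised stabilizer
state -/
def Obt {E : Type} [AddCommGroup E] [Module (ZMod 2) E] (c : ℕ) (G : E → ℂ) : Prop :=
  ∃ (ι : Type) (_ : Fintype ι) (_ : DecidableEq ι), Fintype.card ι ≤ c ∧
    ∃ Φ : E × (ι → ZMod 2) → ℂ, IsS Φ ∧
      ∀ x, G x = ∑ y : ι → ZMod 2, Φ (x, y) * ∏ j, vv (y j)

end

end H650SR
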