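import Mathlib

/-! # Pauli matrices, Clifford unitaries, stabilizer states and stabilizer rank (definitions) -/

namespace H650SR

open Finset

noncomputable section

/-- Pauli matrix `X` -/
def pX : Matrix (Fin 2) (Fin 2) ℂ := !![0, 1; 1, 0]

/-- Pauli matrix `Y` -/
def pY : Matrix (Fin 2) (Fin 2) ℂ := !![0, -Complex.I; Complex.I, 0]

/-- Pauli matrix `Z` -/
def pZ : Matrix (Fin 2) (Fin 2) ℂ := !![1, 0; 0, -1]

/-- `P_1`, the subgroup of `GL_2(ℂ)` generated by `X`, `Y`, `Z` -/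
def P1 : Subgroup (GL (Fin 2) ℂ) :=
  Subgroup.closure {g | (g : Matrix (Fin 2) (Fin 2) ℂ) = pX ∨ (g : Matrix (Fin 2) (Fin 2) ℂ) = pY ∨
    (g : Matrix (Fin 2) (Fin 2) ℂ) = pZ}

/-- The tensor product of `d` matrices of size two, as a matrix on `V_d = (ℂ²)^{⊗ d}`; vectors of `V_d`
are written in the product basis, i.e. as functions on the bit strings `Fin d → Fin 2`. -/
def tens {d : ℕ} (p : Fin d → Matrix (Fin 2) (Fin 2) ℂ) :
    Matrix (Fin d → Fin 2) (Fin d → Fin 2) ℂ :=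
  fun x y => ∏ j, p j (x j) (y j)

/-- `P_d`, the image of `P_1^{× d}` in the operators on `V_d` -/
def Pd (d : ℕ) : Set (Matrix (Fin d → Fin 2) (Fin d → Fin 2) ℂ) :=
  {M | ∃ p : Fin d → GL (Fin 2) ℂ, (∀ j, p j ∈ P1) ∧
    M = tens (fun j => (p j : Matrix (Fin 2) (Fin 2) ℂ))}

/-- The Clifford group: the unitary matrices on `V_d` that normalize `P_d` -/
def Cliff (d : ℕ) : Set (Matrix (Fin d → Fin 2) (Fin d → Fin 2) ℂ) :=
  {U | U ∈ Matrix.unitaryGroup (Fin d → Fin 2) ℂ ∧ ∀ M, M ∈ Pd d ↔ U * M * star U ∈ Pd d}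

/-- `e_0^{⊗ d}` -/
def e0 (d : ℕ) : (Fin d → Fin 2) → ℂ := Pi.single 0 1

/-- The stabilizer states: the Clifford orbit of `e_0^{⊗ d}` -/
def StabStates (d : ℕ) : Set ((Fin d → Fin 2) → ℂ) := {T | ∃ U ∈ Cliff d, T = U.mulVec (e0 d)}

/-- The stabilizer rank -/
def stabR {d : ℕ} (T : (Fin d → Fin 2) → ℂ) : ℕ :=
  sInf {r | ∃ (α : Fin r → ℂ) (t : Fin r → (Fin d → Fin 2) → ℂ),
    (∀ i, t i ∈ StabStates d) ∧ T = ∑ i, α i • t i}

/-- `v^{⊗ d}` for `v = e_0 + √2 e_1` -/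
def vpow (d : ℕ) : (Fin d → Fin 2) → ℂ :=
  fun x => ∏ j, (![1, (Real.sqrt 2 : ℂ)] : Fin 2 → ℂ) (x j)

end

end H650SR
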