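import Mathlib
import Pool.Agent.Helper650_Stab.Base

namespace H650SR

open Finset

noncomputable section

variable {E F : Type} [AddCommGroup E] [Module (ZMod 2) E] [Finite E]
  [AddCommGroup F] [Module (ZMod 2) F]

theorem h954_sgn_inj (s t : ZMod 2) (h : sgn s = sgn t) : s = t := by
  rcases zc s with rfl | rfl <;> rcases zc t with rfl | rfl
  · rfl
  · rw [sgn_zero, sgn_one] at h
    norm_num at h
  · rw [sgn_zero, sgn_one] at h
    norm_num at h
  · rfl

theorem h954_ne {G : Type} [AddCommGroup G] [Module (ZMod 2) G] (f : G → ℂ) (x₀ : G)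
    (hx : f x₀ ≠ 0) (a : G) (α : Module.Dual (ZMod 2) G) (c : ℂ)
    (h : ∀ x, sgn (α x) * f (x + a) = c * f x) : c ≠ 0 := by
  intro hc
  have h1 := h (x₀ + a)
  rw [add_assoc, add_self_z, add_zero, hc, zero_mul] at h1
  exact (mul_ne_zero (sgn_ne_zero _) hx) h1

omit [Finite E] in
theorem h954_comm (f : E → ℂ) (x₀ : E) (hx : f x₀ ≠ 0) (p q : E × Module.Dual (ZMod 2) E)
    (hp : p ∈ Stb f) (hq : q ∈ Stb f) : p.2 q.1 = q.2 p.1 := by
  obtain ⟨a, α⟩ := p
  obtain ⟨b, β⟩ := q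
  obtain ⟨c, hc⟩ := hp
  obtain ⟨d, hd⟩ := hq
  simp only at hc hd ⊢
  have hc0 := h954_ne f x₀ hx a α c hc
  have hd0 := h954_ne f x₀ hx b β d hd
  have e1 := hc x₀
  have e2 := hd (x₀ + a)
  have e3 := hd x₀
  have e4 := hc (x₀ + b)
  rw [map_add, sgn_add] at e2 e4
  have e5 : x₀ + b + a = x₀ + a + b := by abel
  rw [e5] at e4
  apply h954_sgn_inj
  have hF : f (x₀ + a + b) ≠ 0 := by
    intro h0
    rw [h0, mul_zero] at e2
    rcases mul_eq_zero.mp e2.symm with h | h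
    · exact hd0 h
    · rw [h, mul_zero] at e1
      rcases mul_eq_zero.mp e1.symm with h | h
      · exact hc0 h
      · exact hx h
  have k1 : (sgn (α x₀) * sgn (β x₀) * f (x₀ + a + b)) * sgn (β a) =
      (sgn (α x₀) * sgn (β x₀) * f (x₀ + a + b)) * sgn (α b) := by
    calc (sgn (α x₀) * sgn (β x₀) * f (x₀ + a + b)) * sgn (β a)
        = sgn (α x₀) * (sgn (β x₀) * sgn (β a) * f (x₀ + a + b)) := by ring
      _ = sgn (α x₀) * (d * f (x₀ + a)) := by rw [e2]
      _ = d * (sgn (α x₀) * f (x₀ + a)) := by ring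
      _ = d * (c * f x₀) := by rw [e1]
      _ = c * (d * f x₀) := by ring
      _ = c * (sgn (β x₀) * f (x₀ + b)) := by rw [e3]
      _ = sgn (β x₀) * (c * f (x₀ + b)) := by ring
      _ = sgn (β x₀) * (sgn (α x₀) * sgn (α b) * f (x₀ + a + b)) := by rw [e4]
      _ = _ := by ring
  have k2 := mul_left_cancel₀ (mul_ne_zero (mul_ne_zero (sgn_ne_zero _) (sgn_ne_zero _)) hF) k1
  exact k2.symm

/-- TARGET 1: commutation -/
theorem Stb_comm (f : E → ℂ) (x₀ : E) (hx : f x₀ ≠ 0) (p q : E × Module.Dual (ZMod 2) E)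
    (hp : p ∈ Stb f) (hq : q ∈ Stb f) : p.2 q.1 = q.2 p.1 :=
  h954_comm f x₀ hx p q hp hq

theorem h954_zero (f : E → ℂ) (hf : ∀ x, f x = 0) : IsS f := by
  have htop : Stb f = ⊤ := by
    rw [eq_top_iff]
    intro p _
    exact ⟨0, fun x => by rw [hf, hf]; ring⟩
  unfold IsS
  rw [htop, finrank_top, Module.finrank_prod]
  omega

omit [Finite E] in
theorem h954_split (β : Module.Dual (ZMod 2) (E × F)) (x : E) (y : F) :
    β (x, y) = β (x, 0) + β (0, y) := by
  have h : ((x, y) : E × F) = (x, 0) + (0, y) := by simp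
  rw [h, map_add]

omit [Finite E] in
theorem h954_ann (f : E × F → ℂ) (x₀ : E × F) (hx : f x₀ ≠ 0)
    (p q : (E × F) × Module.Dual (ZMod 2) (E × F)) (hp : p ∈ Stb f) (hq : q ∈ Stb f)
    (h1 : p.1 = 0) (h2 : ∀ x : E, p.2 (x, 0) = 0) : p.2 (0, q.1.2) = 0 := by
  obtain ⟨a, α⟩ := p
  obtain ⟨⟨b1, b2⟩, β⟩ := q
  have h7 := h954_comm f x₀ hx _ _ hp hq
  simp only at h1 h2 h7 ⊢
  rw [h1, map_zero, h954_split, h2, zero_add] at h7
  exact h7

/-- TARGET 2 -/
theorem IsS_restrict [Finite F] (f : E × F → ℂ) (hf : IsS f) : IsS (fun x : E => f (x, 0)) := by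
  classical
  by_cases h0 : ∀ x, f x = 0
  · exact h954_zero _ fun x => h0 (x, 0)
  push Not at h0
  obtain ⟨x₀, hx₀⟩ := h0
  haveI : Module.Finite (ZMod 2) E := Module.Finite.of_finite
  haveI : Module.Finite (ZMod 2) F := Module.Finite.of_finite
  let L := Stb f
  let π : L →ₗ[ZMod 2] F := (LinearMap.snd (ZMod 2) E F) ∘ₗ
    (LinearMap.fst (ZMod 2) (E × F) (Module.Dual (ZMod 2) (E × F))) ∘ₗ L.subtype
  let ψ0 : L →ₗ[ZMod 2] E × Module.Dual (ZMod 2) E :=
    LinearMap.prod ((LinearMap.fst (ZMod 2) E F) ∘ₗ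
      (LinearMap.fst (ZMod 2) (E × F) (Module.Dual (ZMod 2) (E × F))) ∘ₗ L.subtype)
      ((Module.Dual.transpose (LinearMap.inl (ZMod 2) E F)) ∘ₗ
      (LinearMap.snd (ZMod 2) (E × F) (Module.Dual (ZMod 2) (E × F))) ∘ₗ L.subtype)
  let ψ : LinearMap.ker π →ₗ[ZMod 2] E × Module.Dual (ZMod 2) E :=
    ψ0 ∘ₗ (LinearMap.ker π).subtype
  let χ : LinearMap.ker ψ →ₗ[ZMod 2] Module.Dual (ZMod 2) F :=
    (Module.Dual.transpose (LinearMap.inr (ZMod 2) E F)) ∘ₗ
      (LinearMap.snd (ZMod 2) (E × F) (Module.Dual (ZMod 2) (E × F))) ∘ₗ L.subtype ∘ₗ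
      (LinearMap.ker π).subtype ∘ₗ (LinearMap.ker ψ).subtype
  have r1 := LinearMap.finrank_range_add_finrank_ker π
  have r2 := LinearMap.finrank_range_add_finrank_ker ψ
  have r3 : Module.finrank (ZMod 2) (LinearMap.range ψ) ≤
      Module.finrank (ZMod 2) (Stb (fun x : E => f (x, 0))) := by
    apply Submodule.finrank_mono
    rintro _ ⟨⟨⟨⟨⟨a, b⟩, β⟩, hL⟩, hk⟩, rfl⟩
    have hb : b = 0 := hk
    subst hb
    obtain ⟨c, hc⟩ := hL
    refine ⟨c, fun x => ?_⟩
    have := hc (x, 0)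
    simpa [ψ, ψ0, Module.Dual.transpose_apply] using this
  have hker : ∀ p : LinearMap.ker ψ, p.1.1.1.1 = 0 ∧ ∀ x : E, p.1.1.1.2 (x, 0) = 0 := by
    rintro ⟨⟨⟨⟨⟨a, b⟩, β⟩, hL⟩, hk⟩, hk2⟩
    have hb : b = 0 := hk
    have h2 := LinearMap.mem_ker.mp hk2
    have h3 : a = 0 := congrArg Prod.fst h2
    have h4 := congrArg Prod.snd h2
    refine ⟨?_, fun x => ?_⟩
    · simp [hb, h3]
    · have := LinearMap.congr_fun h4 x
      simpa [ψ, ψ0, Module.Dual.transpose_apply] using this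
  have hinj : Function.Injective χ := by
    rw [← LinearMap.ker_eq_bot, LinearMap.ker_eq_bot']
    intro p hp
    obtain ⟨h1, h2⟩ := hker p
    apply Subtype.ext
    apply Subtype.ext
    apply Subtype.ext
    apply Prod.ext
    · exact h1
    · apply LinearMap.ext
      rintro ⟨x, y⟩
      have h6 : p.1.1.1.2 (0, y) = 0 := LinearMap.congr_fun hp y
      rw [h954_split, h2, h6]
      simp
  have hr : LinearMap.range χ ≤ (LinearMap.range π).dualAnnihilator := by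
    rintro _ ⟨p, rfl⟩
    rw [Submodule.mem_dualAnnihilator]
    rintro _ ⟨q, rfl⟩
    obtain ⟨h1, h2⟩ := hker p
    exact h954_ann f x₀ hx₀ p.1.1.1 q.1 p.1.1.2 q.2 h1 h2
  have r4 : Module.finrank (ZMod 2) (LinearMap.ker ψ) ≤
      Module.finrank (ZMod 2) (LinearMap.range π).dualAnnihilator := by
    rw [← LinearMap.finrank_range_of_inj hinj]
    exact Submodule.finrank_mono hr
  have r5 := Subspace.finrank_add_finrank_dualAnnihilator_eq (LinearMap.range π)
  have r6 : Module.finrank (ZMod 2) (E × F) ≤ Module.finrank (ZMod 2) L := hf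
  rw [Module.finrank_prod] at r6
  unfold IsS
  omega

end

end H650SR

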