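import Mathlib
import Pool.Agent.Helper650_Stab.Base

namespace H650SR

open Finset

noncomputable section

section h324s
variable {V : Type} [AddCommGroup V] [Module (ZMod 2) V]

theorem h324s_eig {f : V → ℂ} {a : V} {β : Module.Dual (ZMod 2) V} {c : ℂ}
    (h : ∀ x, sgn (β x) * f (x + a) = c * f x) {x0 : V} (h0 : f x0 ≠ 0) : c ≠ 0 := by
  intro hc
  have h1 := h (x0 + a)
  rw [hc, zero_mul, add_assoc, add_self_z, add_zero] at h1
  exact (mul_ne_zero (sgn_ne_zero _) h0) h1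

theorem h324s_sgn_inj {s t : ZMod 2} (h : sgn s = sgn t) : s = t := by
  rcases zc s with rfl | rfl <;> rcases zc t with rfl | rfl
  · rfl
  · rw [sgn_zero, sgn_one] at h
    norm_num at h
  · rw [sgn_zero, sgn_one] at h
    norm_num at h
  · rfl

theorem h324s_comm {f : V → ℂ} {p q : V × Module.Dual (ZMod 2) V} (hp : p ∈ Stb f)
    (hq : q ∈ Stb f) {x0 : V} (h0 : f x0 ≠ 0) : p.2 q.1 = q.2 p.1 := by
  obtain ⟨c, hc⟩ := hp
  obtain ⟨d, hd⟩ := hq
  have hc0 := h324s_eig hc h0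
  have hd0 := h324s_eig hd h0
  apply h324s_sgn_inj
  have h1 := hc x0
  have h2 := hd x0
  have h3 := hd (x0 + p.1)
  have h4 := hc (x0 + q.1)
  rw [map_add, sgn_add] at h3 h4
  have e : x0 + p.1 + q.1 = x0 + q.1 + p.1 := by abel
  rw [e] at h3
  have s1 := sgn_mul_self (p.2 x0)
  have s2 := sgn_mul_self (q.2 x0)
  have s3 := sgn_mul_self (q.2 p.1)
  have s4 := sgn_mul_self (p.2 q.1)
  have k : c * d * f x0 ≠ 0 := mul_ne_zero (mul_ne_zero hc0 hd0) h0
  generalize sgn (p.2 x0) = A at *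
  generalize sgn (q.2 x0) = B at *
  generalize sgn (q.2 p.1) = C at *
  generalize sgn (p.2 q.1) = D at *
  generalize f (x0 + q.1 + p.1) = Z at *
  -- A * f(x0+p) = c f ; B * f(x0+q) = d f ; B*C*Z = d f(x0+p) ; A*D*Z = c f(x0+q)
  have e1 : C * Z * (A * B) = c * d * f x0 := by
    linear_combination A * h3 + d * h1
  have e2 : D * Z * (A * B) = c * d * f x0 := by
    linear_combination B * h4 + c * h2
  have e3 : (C - D) * (Z * (A * B)) = 0 := by linear_combination e1 - e2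
  rcases mul_eq_zero.mp e3 with h | h
  · linear_combination -h
  · exfalso
    apply k
    rw [← e1, mul_assoc, h, mul_zero]

end h324s

variable {E F : Type} [AddCommGroup E] [Module (ZMod 2) E] [Finite E]
  [AddCommGroup F] [Module (ZMod 2) F]

theorem h324s_sum [Fintype F] (f : E × F → ℂ) (p : (E × F) × Module.Dual (ZMod 2) (E × F))
    (hp : p ∈ Stb f) (h0 : p.2 ∘ₗ LinearMap.inr (ZMod 2) E F = 0) :
    (p.1.1, p.2 ∘ₗ LinearMap.inl (ZMod 2) E F) ∈ Stb (fun x : E => ∑ y : F, f (x, y)) := by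
  obtain ⟨c, hc⟩ := hp
  refine ⟨c, fun x => ?_⟩
  show sgn (p.2 (x, 0)) * ∑ y : F, f (x + p.1.1, y) = c * ∑ y : F, f (x, y)
  have e0 : ∑ y : F, f (x + p.1.1, y) = ∑ y : F, f (x + p.1.1, y + p.1.2) :=
    (Equiv.sum_comp (Equiv.addRight p.1.2) (fun y => f (x + p.1.1, y))).symm
  rw [e0, Finset.mul_sum, Finset.mul_sum]
  apply Finset.sum_congr rfl
  intro y _
  have h1 := hc (x, y)
  have h2 : p.2 (0, y) = 0 := by
    have := LinearMap.congr_fun h0 y
    simpa using this
  have h3 : p.2 (x, y) = p.2 (x, 0) := by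
    have e : ((x, y) : E × F) = (x, 0) + (0, y) := by simp
    rw [e, map_add, h2, add_zero]
  rw [h3] at h1
  exact h1

/-- TARGET 1 -/
theorem IsS_push [Fintype F] (f : E × F → ℂ) (hf : IsS f) :
    IsS (fun x : E => ∑ y : F, f (x, y)) := by
  classical
  by_cases hf0 : f = 0
  · subst hf0
    have htop : Stb (fun x : E => ∑ y : F, (0 : E × F → ℂ) (x, y)) = ⊤ := by
      rw [eq_top_iff]
      intro p _
      exact ⟨0, fun x => by simp⟩
    unfold IsS
    rw [htop, finrank_top, Module.finrank_prod]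
    omega
  obtain ⟨x0, hx0⟩ : ∃ x0, f x0 ≠ 0 := by
    by_contra hcon
    push Not at hcon
    exact hf0 (funext hcon)
  let L := Stb f
  let K : Submodule (ZMod 2) F := L.comap ((LinearMap.inl (ZMod 2) (E × F) (Module.Dual (ZMod 2) (E × F))).comp (LinearMap.inr (ZMod 2) E F))
  let φL : L →ₗ[ZMod 2] Module.Dual (ZMod 2) F :=
    ((LinearMap.inr (ZMod 2) E F).dualMap ∘ₗ LinearMap.snd (ZMod 2) (E × F) (Module.Dual (ZMod 2) (E × F))) ∘ₗ L.subtype
  let L0 := LinearMap.ker φL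
  let ψ0 : L0 →ₗ[ZMod 2] E × Module.Dual (ZMod 2) E :=
    (LinearMap.prod (LinearMap.fst (ZMod 2) E F ∘ₗ LinearMap.fst (ZMod 2) (E × F) (Module.Dual (ZMod 2) (E × F)))
      ((LinearMap.inl (ZMod 2) E F).dualMap ∘ₗ LinearMap.snd (ZMod 2) (E × F) (Module.Dual (ZMod 2) (E × F)))) ∘ₗ L.subtype ∘ₗ L0.subtype
  let θ : LinearMap.ker ψ0 →ₗ[ZMod 2] F :=
    (LinearMap.snd (ZMod 2) E F ∘ₗ LinearMap.fst (ZMod 2) (E × F) (Module.Dual (ZMod 2) (E × F))) ∘ₗ L.subtype ∘ₗ L0.subtype ∘ₗ (LinearMap.ker ψ0).subtype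
  have d1 : Module.finrank (ZMod 2) (LinearMap.range φL) + Module.finrank (ZMod 2) L0 = Module.finrank (ZMod 2) L :=
    LinearMap.finrank_range_add_finrank_ker φL
  have d2 : Module.finrank (ZMod 2) (LinearMap.range ψ0) + Module.finrank (ZMod 2) (LinearMap.ker ψ0) = Module.finrank (ZMod 2) L0 :=
    LinearMap.finrank_range_add_finrank_ker ψ0
  have d3 : Module.finrank (ZMod 2) (LinearMap.range ψ0) ≤ Module.finrank (ZMod 2) (Stb (fun x : E => ∑ y : F, f (x, y))) := by
    apply Submodule.finrank_mono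
    rintro _ ⟨q, rfl⟩
    have hq := q.2
    exact h324s_sum f q.1.1 q.1.2 (LinearMap.mem_ker.mp hq)
  have hker : ∀ q : LinearMap.ker ψ0, q.1.1.1.1.1 = 0 ∧ q.1.1.1.2 = 0 := by
    intro q
    have h1 : ψ0 q.1 = 0 := LinearMap.mem_ker.mp q.2
    have h2 : φL q.1.1 = 0 := LinearMap.mem_ker.mp q.1.2
    have h3 : q.1.1.1.1.1 = 0 := congrArg Prod.fst h1
    have h4 : (LinearMap.inl (ZMod 2) E F).dualMap q.1.1.1.2 = 0 := congrArg Prod.snd h1
    have h5 : (LinearMap.inr (ZMod 2) E F).dualMap q.1.1.1.2 = 0 := h2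
    refine ⟨h3, ?_⟩
    apply LinearMap.ext
    rintro ⟨x, y⟩
    have e1 : q.1.1.1.2 (x, 0) = 0 := by
      have := LinearMap.congr_fun h4 x
      simpa using this
    have e2 : q.1.1.1.2 (0, y) = 0 := by
      have := LinearMap.congr_fun h5 y
      simpa using this
    have e : ((x, y) : E × F) = (x, 0) + (0, y) := by simp
    rw [e, map_add, e1, e2, add_zero]
    rfl
  have d4 : Module.finrank (ZMod 2) (LinearMap.ker ψ0) ≤ Module.finrank (ZMod 2) K := by
    have hinj : Function.Injective θ := by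
      rw [← LinearMap.ker_eq_bot, eq_bot_iff]
      intro q hq
      have h1 : q.1.1.1.1.2 = 0 := LinearMap.mem_ker.mp hq
      obtain ⟨h2, h3⟩ := hker q
      rw [Submodule.mem_bot]
      apply Subtype.ext
      apply Subtype.ext
      apply Subtype.ext
      exact Prod.ext (Prod.ext h2 h1) h3
    rw [← LinearMap.finrank_range_of_inj hinj]
    apply Submodule.finrank_mono
    rintro _ ⟨q, rfl⟩
    obtain ⟨h2, h3⟩ := hker q
    show ((0, q.1.1.1.1.2), 0) ∈ L
    have h4 : (((0, q.1.1.1.1.2), 0) : (E × F) × Module.Dual (ZMod 2) (E × F)) = q.1.1.1 :=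
      Prod.ext (Prod.ext h2.symm rfl) h3.symm
    rw [h4]
    exact q.1.1.2
  have d5 : Module.finrank (ZMod 2) (LinearMap.range φL) ≤ Module.finrank (ZMod 2) K.dualAnnihilator := by
    apply Submodule.finrank_mono
    rintro _ ⟨q, rfl⟩
    rw [Submodule.mem_dualAnnihilator]
    intro b hb
    have hb' : ((0, b), 0) ∈ L := hb
    have h1 := h324s_comm q.2 hb' hx0
    show q.1.2 (0, b) = 0
    exact h1
  have d6 : Module.finrank (ZMod 2) K + Module.finrank (ZMod 2) K.dualAnnihilator = Module.finrank (ZMod 2) F :=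
    Subspace.finrank_add_finrank_dualAnnihilator_eq K
  have d7 : Module.finrank (ZMod 2) (E × F) = Module.finrank (ZMod 2) E + Module.finrank (ZMod 2) F := Module.finrank_prod
  unfold IsS at *
  have d8 : Module.finrank (ZMod 2) (E × F) ≤ Module.finrank (ZMod 2) L := hf
  omega

end

end H650SR

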