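import Mathlib
import Pool.Agent.Helper650_Stab.Base

namespace H650SR

open Finset

noncomputable section

variable {E F : Type} [AddCommGroup E] [Module (ZMod 2) E] [Finite E]
  [AddCommGroup F] [Module (ZMod 2) F] [Finite F]

theorem h872_of_inj {V : Type*} [AddCommGroup V] [Module (ZMod 2) V] (f : E → ℂ)
    (L : V →ₗ[ZMod 2] (E × Module.Dual (ZMod 2) E)) (hinj : Function.Injective L)
    (hmem : ∀ v, L v ∈ Stb f) (hd : Module.finrank (ZMod 2) E ≤ Module.finrank (ZMod 2) V) :
    IsS f := by
  unfold IsS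
  refine hd.trans ?_
  refine LinearMap.finrank_le_finrank_of_injective (f := L.codRestrict (Stb f) hmem) ?_
  exact (LinearMap.injective_codRestrict_iff hmem).2 hinj

theorem h872_of_le (f : E → ℂ) (g : E → ℂ) (hf : IsS f) (h : Stb f ≤ Stb g) : IsS g := by
  unfold IsS at *
  exact hf.trans (Submodule.finrank_mono h)

/-- TARGET 1 -/
theorem IsS_zero : IsS (fun _ : E => (0 : ℂ)) := by
  refine h872_of_inj _ (LinearMap.inl (ZMod 2) E (Module.Dual (ZMod 2) E))
    LinearMap.inl_injective (fun v => ⟨1, fun x => by simp⟩) le_rfl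

/-- TARGET 2 -/
theorem IsS_const : IsS (fun _ : E => (1 : ℂ)) := by
  refine h872_of_inj _ (LinearMap.inl (ZMod 2) E (Module.Dual (ZMod 2) E))
    LinearMap.inl_injective (fun v => ⟨1, fun x => by simp [sgn_zero]⟩) le_rfl

/-- TARGET 3 -/
theorem IsS_delta [DecidableEq E] : IsS (fun x : E => if x = 0 then (1 : ℂ) else 0) := by
  refine h872_of_inj _ (LinearMap.inr (ZMod 2) E (Module.Dual (ZMod 2) E))
    LinearMap.inr_injective (fun v => ⟨1, fun x => ?_⟩) (Subspace.dual_finrank_eq).ge
  by_cases hx : x = 0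
  · subst hx
    simp [sgn_zero]
  · simp [hx]

/-- TARGET 4 -/
theorem IsS_smul (c : ℂ) (f : E → ℂ) (hf : IsS f) : IsS (fun x => c * f x) := by
  refine h872_of_le f _ hf ?_
  rintro p ⟨d, hd⟩
  exact ⟨d, fun x => by linear_combination c * hd x⟩

/-- TARGET 5 -/
theorem IsS_lin (γ : Module.Dual (ZMod 2) E) : IsS (fun x => sgn (γ x)) := by
  refine h872_of_inj _ (LinearMap.inl (ZMod 2) E (Module.Dual (ZMod 2) E))
    LinearMap.inl_injective (fun v => ⟨sgn (γ v), fun x => ?_⟩) le_rfl
  simp only [LinearMap.inl_apply, LinearMap.zero_apply, sgn_zero, map_add, sgn_add]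
  ring

/-- TARGET 6 -/
theorem IsS_bilin (b : E →ₗ[ZMod 2] F →ₗ[ZMod 2] ZMod 2) :
    IsS (fun p : E × F => sgn (b p.1 p.2)) := by
  let L : (E × F) →ₗ[ZMod 2] ((E × F) × Module.Dual (ZMod 2) (E × F)) :=
    { toFun := fun p => (p, (b p.1).comp (LinearMap.snd (ZMod 2) E F)
        + (b.flip p.2).comp (LinearMap.fst (ZMod 2) E F))
      map_add' := by
        intro p q
        refine Prod.ext rfl ?_
        apply LinearMap.ext
        intro z
        simp only [Prod.fst_add, Prod.snd_add, map_add, LinearMap.add_comp, LinearMap.add_apply,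
          Prod.mk_add_mk]
        ring
      map_smul' := by
        intro t p
        refine Prod.ext rfl ?_
        apply LinearMap.ext
        intro z
        simp only [Prod.smul_fst, Prod.smul_snd, map_smul, LinearMap.smul_comp,
          LinearMap.add_apply, LinearMap.smul_apply, RingHom.id_apply, smul_add] }
  refine h872_of_inj _ L ?_ ?_ le_rfl
  · intro p q h
    exact congrArg Prod.fst h
  · rintro ⟨a, c⟩
    refine ⟨sgn (b a c), ?_⟩
    rintro ⟨x, y⟩
    change sgn (b a y + b x c) * sgn (b (x + a) (y + c)) = sgn (b a c) * sgn (b x y)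
    simp only [map_add, LinearMap.add_apply, sgn_add]
    have h1 := sgn_mul_self (b a y)
    have h2 := sgn_mul_self (b x c)
    linear_combination (sgn (b a c) * sgn (b x y) * (sgn (b x c) * sgn (b x c))) * h1
      + (sgn (b a c) * sgn (b x y)) * h2

/-- TARGET 7 -/
theorem IsS_tensor (f : E → ℂ) (g : F → ℂ) (hf : IsS f) (hg : IsS g) :
    IsS (fun p : E × F => f p.1 * g p.2) := by
  let L : (Stb f × Stb g) →ₗ[ZMod 2] ((E × F) × Module.Dual (ZMod 2) (E × F)) :=
    { toFun := fun p => ((p.1.1.1, p.2.1.1), (p.1.1.2).comp (LinearMap.fst (ZMod 2) E F)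
        + (p.2.1.2).comp (LinearMap.snd (ZMod 2) E F))
      map_add' := by
        intro p q
        refine Prod.ext rfl ?_
        apply LinearMap.ext
        intro z
        simp only [Prod.fst_add, Prod.snd_add, Submodule.coe_add, LinearMap.add_comp,
          LinearMap.add_apply, Prod.mk_add_mk]
        ring
      map_smul' := by
        intro t p
        refine Prod.ext rfl ?_
        apply LinearMap.ext
        intro z
        simp only [Prod.smul_fst, Prod.smul_snd, Submodule.coe_smul, LinearMap.smul_comp,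
          LinearMap.add_apply, LinearMap.smul_apply, RingHom.id_apply, smul_add] }
  refine h872_of_inj (V := Stb f × Stb g) _ L ?_ ?_ ?_
  · rintro ⟨⟨⟨a, α⟩, ha⟩, ⟨⟨b, β⟩, hb⟩⟩ ⟨⟨⟨a', α'⟩, ha'⟩, ⟨⟨b', β'⟩, hb'⟩⟩ h
    have h1 : (a, b) = (a', b') := congrArg Prod.fst h
    have h2 : α.comp (LinearMap.fst (ZMod 2) E F) + β.comp (LinearMap.snd (ZMod 2) E F)
      = α'.comp (LinearMap.fst (ZMod 2) E F) + β'.comp (LinearMap.snd (ZMod 2) E F) :=
      congrArg Prod.snd h
    have h3 : a = a' := congrArg Prod.fst h1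
    have h4 : b = b' := congrArg Prod.snd h1
    have h5 : α = α' := by
      apply LinearMap.ext
      intro x
      have := congrArg (fun l : Module.Dual (ZMod 2) (E × F) => l (x, 0)) h2
      simpa using this
    have h6 : β = β' := by
      apply LinearMap.ext
      intro x
      have := congrArg (fun l : Module.Dual (ZMod 2) (E × F) => l (0, x)) h2
      simpa using this
    subst h3 h4 h5 h6
    rfl
  · rintro ⟨⟨⟨a, α⟩, ⟨c, hc⟩⟩, ⟨⟨b, β⟩, ⟨d, hd⟩⟩⟩
    refine ⟨c * d, ?_⟩
    rintro ⟨x, y⟩
    change sgn (α x + β y) * (f (x + a) * g (y + b)) = c * d * (f x * g y)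
    have h1 := hc x
    have h2 := hd y
    simp only at h1 h2
    rw [sgn_add]
    calc sgn (α x) * sgn (β y) * (f (x + a) * g (y + b))
        = (sgn (α x) * f (x + a)) * (sgn (β y) * g (y + b)) := by ring
      _ = _ := by rw [h1, h2]; ring
  · rw [Module.finrank_prod, Module.finrank_prod]
    exact Nat.add_le_add hf hg

/-- TARGET 8 -/
theorem IsS_trans (c : E) (f : E → ℂ) (hf : IsS f) : IsS (fun x => f (x + c)) := by
  refine h872_of_le f _ hf ?_
  rintro ⟨a, β⟩ ⟨d, hd⟩
  refine ⟨d * sgn (β c), fun x => ?_⟩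
  have h1 := hd (x + c)
  simp only [map_add, sgn_add] at h1 ⊢
  have h2 := sgn_mul_self (β c)
  have h3 : x + a + c = x + c + a := by abel
  rw [h3]
  linear_combination (sgn (β c)) * h1 - (sgn (β x) * f (x + c + a)) * h2

/-- TARGET 9 -/
theorem IsS_equiv (e : F ≃ₗ[ZMod 2] E) (f : E → ℂ) (hf : IsS f) : IsS (fun x => f (e x)) := by
  let L : (Stb f) →ₗ[ZMod 2] (F × Module.Dual (ZMod 2) F) :=
    { toFun := fun p => (e.symm p.1.1, (p.1.2).comp (e : F →ₗ[ZMod 2] E))
      map_add' := by
        intro p q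
        refine Prod.ext ?_ ?_
        · simp
        · apply LinearMap.ext
          intro z
          simp
      map_smul' := by
        intro t p
        refine Prod.ext ?_ ?_
        · simp
        · apply LinearMap.ext
          intro z
          simp }
  refine h872_of_inj _ L ?_ ?_ ?_
  · rintro ⟨⟨a, α⟩, ha⟩ ⟨⟨a', α'⟩, ha'⟩ h
    have h1 : e.symm a = e.symm a' := congrArg Prod.fst h
    have h2 : α.comp (e : F →ₗ[ZMod 2] E) = α'.comp (e : F →ₗ[ZMod 2] E) := congrArg Prod.snd h
    have h3 : a = a' := e.symm.injective h1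
    have h5 : α = α' := by
      apply LinearMap.ext
      intro x
      have := congrArg (fun l : Module.Dual (ZMod 2) F => l (e.symm x)) h2
      simpa using this
    subst h3 h5
    rfl
  · rintro ⟨⟨a, α⟩, ⟨c, hc⟩⟩
    refine ⟨c, fun x => ?_⟩
    change sgn (α (e x)) * f (e (x + e.symm a)) = c * f (e x)
    have h1 := hc (e x)
    simp only at h1
    rw [map_add, LinearEquiv.apply_symm_apply]
    exact h1
  · rw [LinearEquiv.finrank_eq e]
    exact hf

end

end H650SR

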