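import Mathlib
import Pool.Agent.Helper650_Stab.Base
import Pool.Agent.Helper650_Stab.J1
import Pool.Agent.Helper650_Stab.J1b
import Pool.Agent.Helper650_Stab.J2

namespace H650SR

open Finset

noncomputable section

variable {E F : Type} [AddCommGroup E] [Module (ZMod 2) E] [Finite E]
  [AddCommGroup F] [Module (ZMod 2) F] [Finite F]

theorem IsS_const' : IsS (fun _ : E => (1 : ℂ)) := IsS_const
theorem IsS_tensor' (f : E → ℂ) (g : F → ℂ) (hf : IsS f) (hg : IsS g) :
    IsS (fun p : E × F => f p.1 * g p.2) := IsS_tensor f g hf hg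
theorem IsS_equiv' (e : F ≃ₗ[ZMod 2] E) (f : E → ℂ) (hf : IsS f) : IsS (fun x => f (e x)) :=
  IsS_equiv e f hf
theorem IsS_restrict' (f : E × F → ℂ) (hf : IsS f) : IsS (fun x : E => f (x, 0)) :=
  IsS_restrict f hf
theorem IsS_delta' [DecidableEq E] : IsS (fun x : E => if x = 0 then (1 : ℂ) else 0) := IsS_delta
theorem IsS_smul' (c : ℂ) (f : E → ℂ) (hf : IsS f) : IsS (fun x => c * f x) := IsS_smul c f hf
theorem IsS_lin' (γ : Module.Dual (ZMod 2) E) : IsS (fun x => sgn (γ x)) := IsS_lin γ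
theorem IsS_bilin' (b : E →ₗ[ZMod 2] F →ₗ[ZMod 2] ZMod 2) :
    IsS (fun p : E × F => sgn (b p.1 p.2)) := IsS_bilin b
theorem IsS_trans' (c : E) (f : E → ℂ) (hf : IsS f) : IsS (fun x => f (x + c)) := IsS_trans c f hf
theorem IsS_push' [Fintype F] (f : E × F → ℂ) (hf : IsS f) :
    IsS (fun x : E => ∑ y : F, f (x, y)) := IsS_push f hf

end

end H650SR
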