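import Mathlib
import Pool.Agent.Helper650_Stab.Base
import Pool.Agent.Helper650_Stab.P1

namespace H650SR

open Finset

noncomputable section

variable {E F : Type} [AddCommGroup E] [Module (ZMod 2) E] [Finite E]
  [AddCommGroup F] [Module (ZMod 2) F] [Finite F]


/-- the shear `(u, y) ↦ (u, y + g u)` -/
def h615_shear (g : F →ₗ[ZMod 2] E) : (F × E) ≃ₗ[ZMod 2] (F × E) :=
  LinearEquiv.ofLinearMap
    ((LinearMap.fst (ZMod 2) F E).prod
      (LinearMap.snd (ZMod 2) F E + g.comp (LinearMap.fst (ZMod 2) F E)))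
    ((LinearMap.fst (ZMod 2) F E).prod
      (LinearMap.snd (ZMod 2) F E - g.comp (LinearMap.fst (ZMod 2) F E)))
    (by
      refine LinearMap.ext fun p => ?_
      simp)
    (by
      refine LinearMap.ext fun p => ?_
      simp)

omit [Finite E] [Finite F] in
theorem h615_shear_apply (g : F →ₗ[ZMod 2] E) (p : F × E) :
    h615_shear g p = (p.1, p.2 + g p.1) := rfl

/-- TARGET 1: pullback along a linear map (not nec. injective or surjective).
HINT: on F × E take the tensor of the constant 1 and f, i.e. (u,y) ↦ f y, compose with the linear equivalence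
(u,y) ↦ (u, y + g u), restrict to y = 0. -/
theorem IsS_comp (g : F →ₗ[ZMod 2] E) (f : E → ℂ) (hf : IsS f) : IsS (fun x => f (g x)) := by
  have h1 : IsS (fun p : F × E => (fun _ : F => (1 : ℂ)) p.1 * f p.2) :=
    IsS_tensor' (E := F) (F := E) (fun _ : F => (1 : ℂ)) f IsS_const' hf
  have h2 := IsS_equiv' (h615_shear g) _ h1
  have h3 := IsS_restrict' (E := F) (F := E) _ h2
  have h4 : (fun x : F => (1 : ℂ) * f ((h615_shear g (x, 0)).2)) = fun x => f (g x) := by
    funext x
    rw [h615_shear_apply]
    simp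
  rw [← h4]
  exact h3

/-- TARGET 2 HINT: IsS_comp for the tensor product and the diagonal map E → E × E. -/
theorem IsS_mul (f g : E → ℂ) (hf : IsS f) (hg : IsS g) : IsS (fun x => f x * g x) := by
  have h1 : IsS (fun p : E × E => f p.1 * g p.2) := IsS_tensor' f g hf hg
  have h2 := IsS_comp (E := E × E) (F := E)
    (LinearMap.prod (LinearMap.id : E →ₗ[ZMod 2] E) (LinearMap.id : E →ₗ[ZMod 2] E))
    (fun p : E × E => f p.1 * g p.2) h1
  have h3 : (fun x : E => (fun p : E × E => f p.1 * g p.2)
      ((LinearMap.prod (LinearMap.id : E →ₗ[ZMod 2] E) (LinearMap.id : E →ₗ[ZMod 2] E)) x)) =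
      fun x => f x * g x := by
    funext x
    simp
  rw [← h3]
  exact h2

end

end H650SR

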