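import Mathlib
import Pool.Agent.Helper650_Stab.Base
import Pool.Agent.Helper650_Stab.J3

namespace H650SR

open Finset

noncomputable section

variable {E F : Type} [AddCommGroup E] [Module (ZMod 2) E] [Finite E]
  [AddCommGroup F] [Module (ZMod 2) F] [Finite F]

theorem IsS_comp' (g : F →ₗ[ZMod 2] E) (f : E → ℂ) (hf : IsS f) : IsS (fun x => f (g x)) :=
  IsS_comp g f hf
theorem IsS_mul' (f g : E → ℂ) (hf : IsS f) (hg : IsS g) : IsS (fun x => f x * g x) :=
  IsS_mul f g hf hg

end

end H650SR
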