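import Mathlib
import Pool.Agent.Helper650_Stab.Base
import Pool.Agent.Helper650_Stab.P2

namespace H650SR

open Finset

noncomputable section

variable {E F : Type} [AddCommGroup E] [Module (ZMod 2) E] [Finite E]
  [AddCommGroup F] [Module (ZMod 2) F] [Finite F]


omit [Finite E] in
/-- TARGET 1 -/
theorem Obt_mono {c c' : ℕ} (h : c ≤ c') (G : E → ℂ) (hG : Obt c G) : Obt c' G := by
  obtain ⟨ι, i1, i2, hc, Φ, hΦ, hG⟩ := hG
  exact ⟨ι, i1, i2, hc.trans h, Φ, hΦ, hG⟩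

/-- TARGET 2 (HINT: ι = Fin 0 or Empty, Φ (x,y) = G x = pullback along the projection) -/
theorem Obt_IsS (G : E → ℂ) (hG : IsS G) : Obt 0 G := by
  refine ⟨Fin 0, inferInstance, inferInstance, le_refl _, fun p => G p.1,
    IsS_comp' (LinearMap.fst (ZMod 2) E (Fin 0 → ZMod 2)) G hG, fun x => ?_⟩
  simp

/-- TARGET 3 -/
theorem Obt_smul {c : ℕ} (κ : ℂ) (G : E → ℂ) (hG : Obt c G) : Obt c (fun x => κ * G x) := by
  obtain ⟨ι, i1, i2, hc, Φ, hΦ, hG⟩ := hG
  refine ⟨ι, i1, i2, hc, fun p => κ * Φ p, IsS_smul' κ Φ hΦ, fun x => ?_⟩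
  show κ * G x = ∑ y : ι → ZMod 2, (κ * Φ (x, y)) * ∏ j, vv (y j)
  rw [hG x, Finset.mul_sum]
  exact Finset.sum_congr rfl fun y _ => by ring

/-- TARGET 4 (HINT: index type ι ⊕ ι', Φ (x,y) = Φ1 (x, y ∘ inl) * Φ2 (x, y ∘ inr)) -/
theorem Obt_mul {c c' : ℕ} (G G' : E → ℂ) (hG : Obt c G) (hG' : Obt c' G') :
    Obt (c + c') (fun x => G x * G' x) := by
  obtain ⟨ι, i1, i2, hc, Φ, hΦ, hG⟩ := hG
  obtain ⟨ι', i1', i2', hc', Φ', hΦ', hG'⟩ := hG'
  have e1 : IsS (fun p : E × (ι ⊕ ι' → ZMod 2) => Φ (p.1, fun j => p.2 (Sum.inl j))) :=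
    IsS_comp' (LinearMap.prodMap (LinearMap.id : E →ₗ[ZMod 2] E)
      (LinearMap.funLeft (ZMod 2) (ZMod 2) (Sum.inl : ι → ι ⊕ ι'))) Φ hΦ
  have e2 : IsS (fun p : E × (ι ⊕ ι' → ZMod 2) => Φ' (p.1, fun j => p.2 (Sum.inr j))) :=
    IsS_comp' (LinearMap.prodMap (LinearMap.id : E →ₗ[ZMod 2] E)
      (LinearMap.funLeft (ZMod 2) (ZMod 2) (Sum.inr : ι' → ι ⊕ ι'))) Φ' hΦ'
  refine ⟨ι ⊕ ι', inferInstance, inferInstance, ?_,
    fun p => Φ (p.1, fun j => p.2 (Sum.inl j)) * Φ' (p.1, fun j => p.2 (Sum.inr j)),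
    IsS_mul' _ _ e1 e2, fun x => ?_⟩
  · rw [Fintype.card_sum]
    omega
  · show G x * G' x = _
    rw [hG x, hG' x, Finset.sum_mul_sum, ← Fintype.sum_prod_type']
    refine (Fintype.sum_equiv (Equiv.sumArrowEquivProdArrow ι ι' (ZMod 2)) _ _ fun y => ?_).symm
    rw [Fintype.prod_sum_type]
    show _ = Φ (x, fun j => y (Sum.inl j)) * (∏ j, vv (y (Sum.inl j))) *
      (Φ' (x, fun j => y (Sum.inr j)) * ∏ j, vv (y (Sum.inr j)))
    ring

/-- TARGET 5 -/
theorem Obt_comp {c : ℕ} (g : F →ₗ[ZMod 2] E) (G : E → ℂ) (hG : Obt c G) :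
    Obt c (fun x => G (g x)) := by
  obtain ⟨ι, i1, i2, hc, Φ, hΦ, hG⟩ := hG
  have e1 : IsS (fun p : F × (ι → ZMod 2) => Φ (g p.1, p.2)) :=
    IsS_comp' (LinearMap.prodMap g (LinearMap.id : (ι → ZMod 2) →ₗ[ZMod 2] (ι → ZMod 2))) Φ hΦ
  exact ⟨ι, i1, i2, hc, fun p => Φ (g p.1, p.2), e1, fun x => hG (g x)⟩

/-- TARGET 6 -/
theorem Obt_trans {c : ℕ} (a : E) (G : E → ℂ) (hG : Obt c G) : Obt c (fun x => G (x + a)) := by
  obtain ⟨ι, i1, i2, hc, Φ, hΦ, hG⟩ := hG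
  have e1 : IsS (fun p : E × (ι → ZMod 2) => Φ (p.1 + a, p.2)) := by
    have h := IsS_trans' ((a, 0) : E × (ι → ZMod 2)) Φ hΦ
    refine (congrArg IsS ?_).mp h
    funext p
    congr 1
    refine Prod.ext rfl ?_
    exact add_zero _
  exact ⟨ι, i1, i2, hc, fun p => Φ (p.1 + a, p.2), e1, fun x => hG (x + a)⟩

/-- TARGET 7 -/
theorem Obt_push [Fintype F] {c : ℕ} (G : E × F → ℂ) (hG : Obt c G) :
    Obt c (fun x => ∑ y, G (x, y)) := by
  obtain ⟨ι, i1, i2, hc, Φ, hΦ, hG⟩ := hG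
  have e1 : IsS (fun p : (E × (ι → ZMod 2)) × F => Φ ((p.1.1, p.2), p.1.2)) :=
    IsS_comp' (LinearMap.prod
      (LinearMap.prod
        ((LinearMap.fst (ZMod 2) E (ι → ZMod 2)).comp
          (LinearMap.fst (ZMod 2) (E × (ι → ZMod 2)) F))
        (LinearMap.snd (ZMod 2) (E × (ι → ZMod 2)) F))
      ((LinearMap.snd (ZMod 2) E (ι → ZMod 2)).comp
          (LinearMap.fst (ZMod 2) (E × (ι → ZMod 2)) F))) Φ hΦ
  have e2 : IsS (fun q : E × (ι → ZMod 2) => ∑ y : F, Φ ((q.1, y), q.2)) :=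
    IsS_push' (fun p : (E × (ι → ZMod 2)) × F => Φ ((p.1.1, p.2), p.1.2)) e1
  refine ⟨ι, i1, i2, hc, fun q => ∑ y : F, Φ ((q.1, y), q.2), e2, fun x => ?_⟩
  show ∑ y, G (x, y) = ∑ z : ι → ZMod 2, (∑ y : F, Φ ((x, y), z)) * ∏ j, vv (z j)
  rw [Finset.sum_congr rfl fun y _ => hG (x, y), Finset.sum_comm]
  exact Finset.sum_congr rfl fun z _ => by rw [Finset.sum_mul]

theorem h25_add_eq (x t : ZMod 2) : x + t = 0 ↔ t = x := by
  revert x t
  decide

/-- TARGET 8 (HINT: ι = Unit or Fin 1, Φ (x,y) = if x = y 0 then 1 else 0, a pullback of the delta function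
of ZMod 2 along (x,y) ↦ x + y 0) -/
theorem Obt_vv : Obt 1 vv := by
  let L : (ZMod 2 × (Unit → ZMod 2)) →ₗ[ZMod 2] ZMod 2 :=
    LinearMap.fst (ZMod 2) (ZMod 2) (Unit → ZMod 2) +
      (LinearMap.proj ()).comp (LinearMap.snd (ZMod 2) (ZMod 2) (Unit → ZMod 2))
  have hL : ∀ p, L p = p.1 + p.2 () := fun p => by
    simp only [L, LinearMap.add_apply, LinearMap.fst_apply, LinearMap.comp_apply,
      LinearMap.snd_apply, LinearMap.proj_apply]
  have e0 := IsS_comp' L (fun x : ZMod 2 => if x = 0 then (1 : ℂ) else 0) IsS_delta'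
  have e1 : IsS (fun p : ZMod 2 × (Unit → ZMod 2) =>
      if p.1 + p.2 () = 0 then (1 : ℂ) else 0) := by
    simp only [hL] at e0
    exact e0
  refine ⟨Unit, inferInstance, inferInstance, by simp, _, e1, fun x => ?_⟩
  have h1 : ∑ y : Unit → ZMod 2, (if x + y () = 0 then (1 : ℂ) else 0) * ∏ j, vv (y j) =
      ∑ t : ZMod 2, (if x + t = 0 then (1 : ℂ) else 0) * vv t := by
    refine Fintype.sum_equiv (Equiv.funUnique Unit (ZMod 2)) _ _ fun y => ?_
    rw [Fintype.prod_unique]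
    rfl
  show vv x = ∑ y : Unit → ZMod 2, (if x + y () = 0 then (1 : ℂ) else 0) * ∏ j, vv (y j)
  rw [h1, Finset.sum_eq_single x]
  · rw [if_pos ((h25_add_eq x x).2 rfl), one_mul]
  · intro t _ ht
    rw [if_neg (fun h => ht ((h25_add_eq x t).1 h)), zero_mul]
  · intro h
    exact absurd (Finset.mem_univ x) h

/-- TARGET 9 (HINT: Finset induction with Obt_mul) -/
theorem Obt_prod {ι : Type} [Fintype ι] {c : ℕ} (G : ι → E → ℂ) (h : ∀ i, Obt c (G i)) :
    Obt (Fintype.card ι * c) (fun x => ∏ i, G i x) := by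
  classical
  have key : ∀ s : Finset ι, Obt (s.card * c) (fun x => ∏ i ∈ s, G i x) := by
    intro s
    induction s using Finset.induction_on with
    | empty =>
      have h1 : Obt 0 (fun _ : E => (1 : ℂ)) := Obt_IsS _ IsS_const'
      simpa using h1
    | insert a s ha ih =>
      have h1 := Obt_mul (G a) (fun x => ∏ i ∈ s, G i x) (h a) ih
      have h2 : (insert a s).card * c = c + s.card * c := by
        rw [Finset.card_insert_of_notMem ha]
        ring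
      rw [h2]
      refine (congrArg (Obt (c + s.card * c)) ?_).mp h1
      funext x
      rw [Finset.prod_insert ha]
  exact key Finset.univ

theorem h25_vv_zero : vv 0 = 1 := by simp [vv]

theorem h25_prod_ext {ι : Type} [Fintype ι] {d : ℕ} (e : ι ↪ Fin d) (y : ι → ZMod 2) :
    ∏ j : Fin d, vv (Function.ExtendByZero.linearMap (ZMod 2) e y j) = ∏ i, vv (y i) := by
  classical
  have h1 : ∀ i, Function.ExtendByZero.linearMap (ZMod 2) e y (e i) = y i := fun i => by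
    show Function.extend e y 0 (e i) = y i
    exact e.injective.extend_apply _ _ _
  have h2 : ∏ i, vv (y i) = ∏ j ∈ Finset.univ.map e,
      vv (Function.ExtendByZero.linearMap (ZMod 2) e y j) := by
    rw [Finset.prod_map]
    exact Finset.prod_congr rfl fun i _ => by rw [h1 i]
  rw [h2]
  symm
  refine Finset.prod_subset (Finset.subset_univ _) fun j _ hj => ?_
  have h3 : Function.ExtendByZero.linearMap (ZMod 2) e y j = 0 := by
    show Function.extend e y 0 j = 0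
    rw [Function.extend_apply']
    · rfl
    · rintro ⟨i, hi⟩
      exact hj (Finset.mem_map.2 ⟨i, Finset.mem_univ i, hi⟩)
  rw [h3, h25_vv_zero]

/-- TARGET 10 (HINT: embedding e : ι ↪ Fin d; pull T i back along the linear map (ι → ZMod 2) → (Fin d → ZMod 2),
extension by zero (Function.ExtendByZero.linearMap), and use vv 0 = 1; then put
T' i x = ∑ y, Φ (x,y) * T i (ext y), which is IsS by IsS_mul', IsS_comp', IsS_push'.) -/
theorem Obt_apply {c d r : ℕ} (hcd : c ≤ d) (G : E → ℂ) (hG : Obt c G)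
    (T : Fin r → (Fin d → ZMod 2) → ℂ) (hT : ∀ i, IsS (T i))
    (h : ∀ y : Fin d → ZMod 2, ∏ j, vv (y j) = ∑ i, T i y) :
    ∃ T' : Fin r → E → ℂ, (∀ i, IsS (T' i)) ∧ ∀ x, G x = ∑ i, T' i x := by
  obtain ⟨ι, i1, i2, hc, Φ, hΦ, hG⟩ := hG
  have h1 : Fintype.card ι ≤ Fintype.card (Fin d) := by
    rw [Fintype.card_fin]
    exact hc.trans hcd
  obtain ⟨e⟩ := Function.Embedding.nonempty_of_card_le h1
  refine ⟨fun i x => ∑ y : ι → ZMod 2, Φ (x, y) *
    T i (Function.ExtendByZero.linearMap (ZMod 2) e y), fun i => ?_, fun x => ?_⟩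
  · have e1 : IsS (fun p : E × (ι → ZMod 2) =>
        T i (Function.ExtendByZero.linearMap (ZMod 2) e p.2)) :=
      IsS_comp' ((Function.ExtendByZero.linearMap (ZMod 2) e).comp
        (LinearMap.snd (ZMod 2) E (ι → ZMod 2))) (T i) (hT i)
    exact IsS_push' (fun p : E × (ι → ZMod 2) => Φ p *
      T i (Function.ExtendByZero.linearMap (ZMod 2) e p.2)) (IsS_mul' _ _ hΦ e1)
  · rw [hG x, Finset.sum_comm]
    refine Finset.sum_congr rfl fun y _ => ?_
    rw [← h25_prod_ext e y, h, Finset.mul_sum]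

end

end H650SR

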