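import Mathlib
import Pool.Agent.Helper650_Stab.Base
import Pool.Agent.Helper650_Stab.J7

namespace H650SR

open Finset

noncomputable section

variable {E F : Type} [AddCommGroup E] [Module (ZMod 2) E] [Finite E]
  [AddCommGroup F] [Module (ZMod 2) F] [Finite F]

theorem Obt_mono' {c c' : ℕ} (h : c ≤ c') (G : E → ℂ) (hG : Obt c G) : Obt c' G := Obt_mono h G hG
theorem Obt_IsS' (G : E → ℂ) (hG : IsS G) : Obt 0 G := Obt_IsS G hG
theorem Obt_smul' {c : ℕ} (κ : ℂ) (G : E → ℂ) (hG : Obt c G) : Obt c (fun x => κ * G x) :=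
  Obt_smul κ G hG
theorem Obt_mul' {c c' : ℕ} (G G' : E → ℂ) (hG : Obt c G) (hG' : Obt c' G') :
    Obt (c + c') (fun x => G x * G' x) := Obt_mul G G' hG hG'
theorem Obt_comp' {c : ℕ} (g : F →ₗ[ZMod 2] E) (G : E → ℂ) (hG : Obt c G) :
    Obt c (fun x => G (g x)) := Obt_comp g G hG
theorem Obt_trans' {c : ℕ} (a : E) (G : E → ℂ) (hG : Obt c G) : Obt c (fun x => G (x + a)) :=
  Obt_trans a G hG
theorem Obt_push' [Fintype F] {c : ℕ} (G : E × F → ℂ) (hG : Obt c G) :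
    Obt c (fun x => ∑ y, G (x, y)) := Obt_push G hG
theorem Obt_vv' : Obt 1 vv := Obt_vv
theorem Obt_prod' {ι : Type} [Fintype ι] {c : ℕ} (G : ι → E → ℂ) (h : ∀ i, Obt c (G i)) :
    Obt (Fintype.card ι * c) (fun x => ∏ i, G i x) := Obt_prod G h

end

end H650SR
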