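import Mathlib
import Pool.Agent.Helper650_Stab.Base
import Pool.Agent.Helper650_Stab.P3

namespace H650SR

open Finset

noncomputable section

variable {E F : Type} [AddCommGroup E] [Module (ZMod 2) E] [Finite E]
  [AddCommGroup F] [Module (ZMod 2) F] [Finite F]


/-- one-hot encoding: e is the indicator of a -/
def hot' {A : Type} [Fintype A] [DecidableEq A] (p : A × (A → ZMod 2)) : ℂ :=
  if p.2 = Pi.single p.1 1 then 1 else 0

/-- the bilinear form with matrix Fn -/
def h612s_bil {A : Type} [Fintype A] (Fn : A × A → ZMod 2) :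
    (A → ZMod 2) →ₗ[ZMod 2] (A → ZMod 2) →ₗ[ZMod 2] ZMod 2 :=
  LinearMap.mk₂ (ZMod 2) (fun e f => ∑ α, ∑ β, Fn (α, β) * e α * f β)
    (by
      intro e e' f
      simp only [Pi.add_apply, mul_add, add_mul, Finset.sum_add_distrib])
    (by
      intro c e f
      simp only [Pi.smul_apply, smul_eq_mul, Finset.mul_sum]
      refine Finset.sum_congr rfl fun α _ => Finset.sum_congr rfl fun β _ => ?_
      ring)
    (by
      intro e f f'
      simp only [Pi.add_apply, mul_add, Finset.sum_add_distrib])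
    (by
      intro c e f
      simp only [Pi.smul_apply, smul_eq_mul, Finset.mul_sum]
      refine Finset.sum_congr rfl fun α _ => Finset.sum_congr rfl fun β _ => ?_
      ring)

theorem h612s_bil_single {A : Type} [Fintype A] [DecidableEq A] (Fn : A × A → ZMod 2) (a b : A) :
    h612s_bil Fn (Pi.single a 1) (Pi.single b 1) = Fn (a, b) := by
  show (∑ α, ∑ β, Fn (α, β) * (Pi.single a (1 : ZMod 2) : A → ZMod 2) α *
    (Pi.single b (1 : ZMod 2) : A → ZMod 2) β) = Fn (a, b)
  rw [Finset.sum_eq_single a, Finset.sum_eq_single b]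
  · simp
  · intro β _ hβ
    simp [Pi.single_eq_of_ne hβ]
  · simp
  · intro α _ hα
    simp [Pi.single_eq_of_ne hα]
  · simp

/-- TARGET 1.  HINT: sgn (Fn (a,b)) = ∑ e, ∑ f, hot' (a,e) * hot' (b,f) * sgn (∑ α, ∑ β, Fn (α,β) * e α * f β),
the last factor is a pullback of IsS_bilin' for the bilinear form (e,f) ↦ ∑ α, ∑ β, Fn (α,β) * e α * f β
(e.g. Matrix.toLinearMap₂' or LinearMap.mk₂). -/
theorem Obt_sign {A : Type} [AddCommGroup A] [Module (ZMod 2) A] [Fintype A] [DecidableEq A]
    {c : ℕ} (h : Obt c (hot' (A := A))) (Fn : A × A → ZMod 2) :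
    Obt (c + c) (fun p : A × A => sgn (Fn p)) := by
  classical
  let V := A → ZMod 2
  have h1 : Obt c (fun x : (A × A) × (V × V) => hot' (A := A) (x.1.1, x.2.1)) :=
    Obt_comp' (E := A × V) (F := (A × A) × (V × V))
      (((LinearMap.fst (ZMod 2) A A).comp (LinearMap.fst (ZMod 2) (A × A) (V × V))).prod
        ((LinearMap.fst (ZMod 2) V V).comp (LinearMap.snd (ZMod 2) (A × A) (V × V)))) hot' h
  have h2 : Obt c (fun x : (A × A) × (V × V) => hot' (A := A) (x.1.2, x.2.2)) :=
    Obt_comp' (E := A × V) (F := (A × A) × (V × V))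
      (((LinearMap.snd (ZMod 2) A A).comp (LinearMap.fst (ZMod 2) (A × A) (V × V))).prod
        ((LinearMap.snd (ZMod 2) V V).comp (LinearMap.snd (ZMod 2) (A × A) (V × V)))) hot' h
  have h3 : Obt 0 (fun x : (A × A) × (V × V) => sgn (h612s_bil Fn x.2.1 x.2.2)) :=
    Obt_comp' (E := V × V) (F := (A × A) × (V × V)) (LinearMap.snd (ZMod 2) (A × A) (V × V))
      (fun p : V × V => sgn (h612s_bil Fn p.1 p.2)) (Obt_IsS' _ (IsS_bilin' (h612s_bil Fn)))
  have h4 := Obt_mul' _ _ (Obt_mul' _ _ h1 h2) h3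
  have h5 := Obt_push' (E := A × A) (F := V × V) _ h4
  rw [add_zero] at h5
  refine (congrArg (Obt (c + c)) ?_).mp h5
  funext p
  obtain ⟨a, b⟩ := p
  rw [Finset.sum_eq_single ((Pi.single a 1, Pi.single b 1) : V × V)]
  · show hot' (a, Pi.single a 1) * hot' (b, Pi.single b 1) *
      sgn (h612s_bil Fn (Pi.single a 1) (Pi.single b 1)) = sgn (Fn (a, b))
    rw [h612s_bil_single]
    simp [hot']
  · rintro ⟨e, f⟩ _ hne
    show hot' (a, e) * hot' (b, f) * sgn (h612s_bil Fn e f) = 0
    by_cases he : e = Pi.single a 1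
    · have hf : f ≠ Pi.single b 1 := by
        intro hf
        exact hne (by rw [he, hf])
      simp [hot', hf]
    · simp [hot', he]
  · intro hh
    exact absurd (Finset.mem_univ _) hh


end

end H650SR

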