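import Mathlib
import Pool.Agent.Helper650_Stab.Base
import Pool.Agent.Helper650_Stab.Clif

namespace H650SR

open Finset

noncomputable section

/-- auxiliary: the matrices `c X^a Z^b` -/
def h73j_f (c : ℂ) (a b : ZMod 2) (x y : ZMod 2) : ℂ :=
  if y = x + a then c * sgn (b * x) else 0

/-- auxiliary: the same as a matrix -/
def h73j_mat (c : ℂ) (a b : ZMod 2) : Matrix (Fin 2) (Fin 2) ℂ :=
  fun x y => h73j_f c a b x y

theorem h73j_mat_mul (c c' : ℂ) (a b a' b' : ZMod 2) :
    h73j_mat c a b * h73j_mat c' a' b' = h73j_mat (c * c' * sgn (b' * a)) (a + a') (b + b') := by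
  have h : ∀ x y : ZMod 2, (∑ z : ZMod 2, (if z = x + a then c * sgn (b * x) else 0) *
      (if y = z + a' then c' * sgn (b' * z) else 0)) =
      if y = x + (a + a') then (c * c' * sgn (b' * a)) * sgn ((b + b') * x) else 0 := by
    intro x y
    rw [Finset.sum_eq_single (x + a)]
    · by_cases hy : y = x + a + a'
      · rw [if_pos rfl, if_pos hy, if_pos (by rw [hy]; ring)]
        rw [mul_add, add_mul, sgn_add, sgn_add]
        ring
      · rw [if_pos rfl, if_neg hy, mul_zero, if_neg (fun h => hy (by rw [h, add_assoc]))]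
    · intro z _ hz
      rw [if_neg hz, zero_mul]
    · intro h
      exact absurd (Finset.mem_univ _) h
  ext x y
  exact h x y

theorem h73j_mat_vals (c : ℂ) (a b : ZMod 2) (M : Matrix (Fin 2) (Fin 2) ℂ)
    (h00 : M 0 0 = h73j_f c a b 0 0) (h01 : M 0 1 = h73j_f c a b 0 1)
    (h10 : M 1 0 = h73j_f c a b 1 0) (h11 : M 1 1 = h73j_f c a b 1 1) : M = h73j_mat c a b := by
  ext x y
  fin_cases x <;> fin_cases y
  · exact h00
  · exact h01
  · exact h10
  · exact h11

theorem h73j_mat_one : (1 : Matrix (Fin 2) (Fin 2) ℂ) = h73j_mat 1 0 0 := by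
  have h : (1 : ZMod 2) ≠ 0 := by decide
  have h' : (0 : ZMod 2) ≠ 1 := by decide
  apply h73j_mat_vals <;> simp [h73j_f, sgn, h, h']

theorem h73j_X : pX = h73j_mat 1 1 0 := by
  have h : (1 : ZMod 2) ≠ 0 := by decide
  have h' : (0 : ZMod 2) ≠ 1 := by decide
  apply h73j_mat_vals <;> simp [h73j_f, sgn, pX, h, h', one_add_one_Z]

theorem h73j_Z : pZ = h73j_mat 1 0 1 := by
  have h : (1 : ZMod 2) ≠ 0 := by decide
  have h' : (0 : ZMod 2) ≠ 1 := by decide
  apply h73j_mat_vals <;> simp [h73j_f, sgn, pZ, h, h']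

theorem h73j_Y : pY = h73j_mat (-Complex.I) 1 1 := by
  have h : (1 : ZMod 2) ≠ 0 := by decide
  have h' : (0 : ZMod 2) ≠ 1 := by decide
  apply h73j_mat_vals <;> simp [h73j_f, sgn, pY, h, h', one_add_one_Z]

theorem h73j_form (g : GL (Fin 2) ℂ) (hg : g ∈ P1) : ∃ (c : ℂ) (a b : ZMod 2), c ≠ 0 ∧
    (g : Matrix (Fin 2) (Fin 2) ℂ) = h73j_mat c a b := by
  unfold P1 at hg
  induction hg using Subgroup.closure_induction with
  | mem g hg =>
    rcases hg with h | h | h
    · exact ⟨1, 1, 0, one_ne_zero, h.trans h73j_X⟩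
    · exact ⟨-Complex.I, 1, 1, neg_ne_zero.mpr Complex.I_ne_zero, h.trans h73j_Y⟩
    · exact ⟨1, 0, 1, one_ne_zero, h.trans h73j_Z⟩
  | one => exact ⟨1, 0, 0, one_ne_zero, h73j_mat_one⟩
  | mul x y _ _ hx hy =>
    obtain ⟨c, a, b, hc, h⟩ := hx
    obtain ⟨c', a', b', hc', h'⟩ := hy
    refine ⟨c * c' * sgn (b' * a), a + a', b + b',
      mul_ne_zero (mul_ne_zero hc hc') (sgn_ne_zero _), ?_⟩
    rw [Units.val_mul, h, h', h73j_mat_mul]
  | inv x _ hx =>
    obtain ⟨c, a, b, hc, h⟩ := hx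
    refine ⟨c⁻¹ * sgn (b * a), a, b, mul_ne_zero (inv_ne_zero hc) (sgn_ne_zero _), ?_⟩
    apply Units.inv_eq_of_mul_eq_one_right
    rw [h, h73j_mat_mul, add_self_z, add_self_z, h73j_mat_one]
    congr 1
    have h3 := sgn_mul_self (b * a)
    calc c * (c⁻¹ * sgn (b * a)) * sgn (b * a) = (c * c⁻¹) * (sgn (b * a) * sgn (b * a)) := by ring
      _ = 1 := by rw [h3, mul_inv_cancel₀ hc, one_mul]

/-- TARGET 1 -/
theorem P1_form (g : GL (Fin 2) ℂ) (hg : g ∈ P1) : ∃ (c : ℂ) (a b : ZMod 2), c ≠ 0 ∧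
    ∀ x y : ZMod 2, (g : Matrix (Fin 2) (Fin 2) ℂ) x y = if y = x + a then c * sgn (b * x) else 0 := by
  obtain ⟨c, a, b, hc, h⟩ := h73j_form g hg
  refine ⟨c, a, b, hc, fun x y => ?_⟩
  rw [h]
  rfl

theorem h73j_sgn_sum {ι : Type} (s : Finset ι) (f : ι → ZMod 2) :
    sgn (∑ j ∈ s, f j) = ∏ j ∈ s, sgn (f j) := by
  classical
  induction s using Finset.induction_on with
  | empty => simp [sgn_zero]
  | insert a s ha ih => rw [Finset.sum_insert ha, Finset.prod_insert ha, sgn_add, ih]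

/-- auxiliary: the product over the coordinates -/
theorem h73j_prod {d : ℕ} (c : Fin d → ℂ) (a b x y : Fin d → ZMod 2) :
    (∏ j, if y j = x j + a j then c j * sgn (b j * x j) else 0) =
      if y = x + a then (∏ j, c j) * sgn (∑ j, b j * x j) else 0 := by
  by_cases h : y = x + a
  · rw [if_pos h, h73j_sgn_sum, ← Finset.prod_mul_distrib]
    refine Finset.prod_congr rfl fun j _ => ?_
    rw [if_pos (by rw [h]; rfl)]
  · rw [if_neg h]
    have : ∃ j, y j ≠ x j + a j := by
      by_contra hc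
      push Not at hc
      exact h (funext hc)
    obtain ⟨j, hj⟩ := this
    exact Finset.prod_eq_zero (Finset.mem_univ j) (if_neg hj)

/-- auxiliary: the linear functional with coordinates `b` -/
def h73j_dual {d : ℕ} (b : Fin d → ZMod 2) : Module.Dual (ZMod 2) (Fin d → ZMod 2) :=
  ∑ j, b j • LinearMap.proj j

theorem h73j_dual_apply {d : ℕ} (b x : Fin d → ZMod 2) : h73j_dual b x = ∑ j, b j * x j := by
  simp [h73j_dual]

/-- TARGET 2 -/
theorem Pd_form (d : ℕ) (M : Matrix (Fin d → Fin 2) (Fin d → Fin 2) ℂ) (hM : M ∈ Pd d) :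
    ∃ (c : ℂ) (a : Fin d → ZMod 2) (β : Module.Dual (ZMod 2) (Fin d → ZMod 2)), c ≠ 0 ∧
    ∀ x y : Fin d → ZMod 2, M x y = if y = x + a then c * sgn (β x) else 0 := by
  obtain ⟨p, hp, rfl⟩ := hM
  choose c a b hc h using fun j => P1_form (p j) (hp j)
  refine ⟨∏ j, c j, a, h73j_dual b, Finset.prod_ne_zero_iff.mpr fun j _ => hc j, fun x y => ?_⟩
  rw [h73j_dual_apply, ← h73j_prod]
  unfold tens
  exact Finset.prod_congr rfl fun j _ => h j (x j) (y j)

/-- auxiliary: the matrix `Z` as a unit -/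
def h73j_Zu : GL (Fin 2) ℂ := ⟨pZ, pZ, by
  rw [h73j_Z, h73j_mat_mul, h73j_mat_one]; simp [sgn, one_add_one_Z], by
  rw [h73j_Z, h73j_mat_mul, h73j_mat_one]; simp [sgn, one_add_one_Z]⟩

theorem h73j_Zu_mem : h73j_Zu ∈ P1 := Subgroup.subset_closure (Or.inr (Or.inr rfl))

/-- TARGET 3 -/
theorem diag_mem_Pd (d : ℕ) (β : Module.Dual (ZMod 2) (Fin d → ZMod 2)) :
    (Matrix.diagonal (fun x : Fin d → Fin 2 => sgn (β (x : Fin d → ZMod 2))) :
      Matrix (Fin d → Fin 2) (Fin d → Fin 2) ℂ) ∈ Pd d := by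
  classical
  set b : Fin d → ZMod 2 := fun j => β (Pi.single j 1) with hb
  have hβ : ∀ x : Fin d → ZMod 2, β x = ∑ j, b j * x j := by
    intro x
    conv_lhs => rw [← Finset.univ_sum_single x]
    rw [map_sum]
    refine Finset.sum_congr rfl fun j _ => ?_
    have : (Pi.single j (x j) : Fin d → ZMod 2) = (x j) • Pi.single j 1 := by
      rw [← Pi.single_smul, smul_eq_mul, mul_one]
    rw [this, map_smul, smul_eq_mul, mul_comm]
  refine ⟨fun j => if b j = 0 then 1 else h73j_Zu, fun j => ?_, ?_⟩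
  · dsimp only
    split_ifs
    · exact P1.one_mem
    · exact h73j_Zu_mem
  · have key : ∀ x y : Fin d → ZMod 2,
        (∏ j, if y j = x j + (0 : Fin d → ZMod 2) j then (1 : ℂ) * sgn (b j * x j) else 0) =
        if y = x + 0 then (∏ _j : Fin d, (1 : ℂ)) * sgn (∑ j, b j * x j) else 0 :=
      fun x y => h73j_prod (fun _ => 1) 0 b x y
    have hmat : ∀ j, (((if b j = 0 then 1 else h73j_Zu : GL (Fin 2) ℂ)) :
        Matrix (Fin 2) (Fin 2) ℂ) = h73j_mat 1 0 (b j) := by
      intro j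
      rcases zc (b j) with h | h
      · rw [h, if_pos rfl]; exact h73j_mat_one
      · rw [h, if_neg (by decide)]; exact h73j_Z
    ext x y
    have h1 : tens (fun j => (((if b j = 0 then 1 else h73j_Zu : GL (Fin 2) ℂ)) :
        Matrix (Fin 2) (Fin 2) ℂ)) x y =
        if (y : Fin d → ZMod 2) = x then sgn (β (x : Fin d → ZMod 2)) else 0 := by
      have h3 : ∀ x y : Fin d → ZMod 2,
          (if y = x then sgn (β x) else 0) = ∏ j, h73j_f 1 0 (b j) (x j) (y j) := by
        intro x y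
        have h2 := key x y
        rw [Finset.prod_const_one, one_mul, add_zero, ← hβ] at h2
        rw [← h2]
        rfl
      refine Eq.trans ?_ (h3 x y).symm
      unfold tens
      exact Finset.prod_congr rfl fun j _ => congrFun (congrFun (hmat j) (x j)) (y j)
    rw [h1]
    by_cases hxy : x = y
    · subst hxy
      rw [Matrix.diagonal_apply_eq, if_pos rfl]
    · rw [Matrix.diagonal_apply_ne _ hxy, if_neg (fun h => hxy h.symm)]

/-- auxiliary: the diagonal sign matrix -/
def h73j_M {d : ℕ} (β : Module.Dual (ZMod 2) (Fin d → ZMod 2)) :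
    Matrix (Fin d → Fin 2) (Fin d → Fin 2) ℂ :=
  Matrix.diagonal (fun x : Fin d → Fin 2 => sgn (β (x : Fin d → ZMod 2)))

theorem h73j_M_e0 {d : ℕ} (β : Module.Dual (ZMod 2) (Fin d → ZMod 2)) :
    (h73j_M β).mulVec (e0 d) = e0 d := by
  ext x
  unfold h73j_M
  rw [Matrix.mulVec_diagonal]
  by_cases hx : x = 0
  · subst hx
    have : β (0 : Fin d → ZMod 2) = 0 := map_zero β
    have h2 : sgn (β ((0 : Fin d → Fin 2) : Fin d → ZMod 2)) = 1 := by
      have h3 : β ((0 : Fin d → Fin 2) : Fin d → ZMod 2) = 0 := this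
      rw [h3, sgn_zero]
    rw [h2, one_mul]
  · have : e0 d x = 0 := by
      unfold e0
      exact Pi.single_eq_of_ne hx _
    rw [this, mul_zero]

theorem h73j_sgn_inj {s t : ZMod 2} (h : sgn s = sgn t) : s = t := by
  rcases zc s with rfl | rfl <;> rcases zc t with rfl | rfl
  · rfl
  · rw [sgn_zero, sgn_one] at h; norm_num at h
  · rw [sgn_zero, sgn_one] at h; norm_num at h
  · rfl

/-- TARGET 4 -/
theorem stab_IsS (d : ℕ) (T : (Fin d → Fin 2) → ℂ) (hT : T ∈ StabStates d) :
    IsS (E := Fin d → ZMod 2) T := by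
  classical
  obtain ⟨U, ⟨hU, hUn⟩, rfl⟩ := hT
  have hUU : star U * U = 1 := Matrix.mem_unitaryGroup_iff'.mp hU
  have hmem : ∀ β : Module.Dual (ZMod 2) (Fin d → ZMod 2), U * h73j_M β * star U ∈ Pd d :=
    fun β => (hUn _).mp (diag_mem_Pd d β)
  choose c a b hc h using fun β => Pd_form d _ (hmem β)
  have hfix : ∀ β : Module.Dual (ZMod 2) (Fin d → ZMod 2),
      (U * h73j_M β * star U).mulVec (U.mulVec (e0 d)) = U.mulVec (e0 d) := by
    intro β
    rw [Matrix.mulVec_mulVec, Matrix.mul_assoc (U * h73j_M β), hUU, Matrix.mul_one,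
      ← Matrix.mulVec_mulVec, h73j_M_e0]
  have hst : ∀ β : Module.Dual (ZMod 2) (Fin d → ZMod 2),
      ((a β, b β) : (Fin d → ZMod 2) × Module.Dual (ZMod 2) (Fin d → ZMod 2)) ∈
        Stb (E := Fin d → ZMod 2) (U.mulVec (e0 d)) := by
    intro β
    refine ⟨(c β)⁻¹, fun x => ?_⟩
    have h1 : (U * h73j_M β * star U).mulVec (U.mulVec (e0 d)) x = U.mulVec (e0 d) x :=
      congrFun (hfix β) x
    have h2 : ∀ T : (Fin d → ZMod 2) → ℂ,
        (∑ y : Fin d → ZMod 2, (if y = x + a β then c β * sgn (b β x) else 0) * T y) =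
        c β * sgn (b β x) * T (x + a β) := by
      intro T
      rw [Finset.sum_eq_single (x + a β)]
      · rw [if_pos rfl]
      · intro y _ hy
        rw [if_neg hy, zero_mul]
      · intro h
        exact absurd (Finset.mem_univ _) h
    have h3 : (U * h73j_M β * star U).mulVec (U.mulVec (e0 d)) x =
        c β * sgn (b β x) * U.mulVec (e0 d) (x + a β) := by
      refine Eq.trans ?_ (h2 (U.mulVec (e0 d)))
      refine Finset.sum_congr rfl fun y _ => ?_
      exact congrArg (· * U.mulVec (e0 d) y) (h β x y)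
    have h4 := h3.symm.trans h1
    have h5 : ∀ (k s t r : ℂ), k ≠ 0 → k * s * t = r → s * t = k⁻¹ * r := by
      intro k s t r hk h
      rw [← h]
      field_simp
    exact h5 _ _ _ _ (hc β) h4
  let F : Module.Dual (ZMod 2) (Fin d → ZMod 2) →
      Stb (E := Fin d → ZMod 2) (U.mulVec (e0 d)) := fun β => ⟨(a β, b β), hst β⟩
  have hF : Function.Injective F := by
    intro β β' hββ
    have h0 : (a β, b β) = (a β', b β') := congrArg Subtype.val hββ
    have ha : a β = a β' := congrArg Prod.fst h0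
    have hb : b β = b β' := congrArg Prod.snd h0
    have hprop : U * h73j_M β * star U = (c β / c β') • (U * h73j_M β' * star U) := by
      ext x y
      rw [Matrix.smul_apply, h β x y, h β' x y, ha, hb, smul_eq_mul]
      split_ifs
      · field_simp [hc β']
      · rw [mul_zero]
    have hM : h73j_M β = (c β / c β') • h73j_M β' := by
      have e1 : ∀ N : Matrix (Fin d → Fin 2) (Fin d → Fin 2) ℂ,
          star U * (U * N * star U) * U = N := by
        intro N
        rw [← Matrix.mul_assoc, ← Matrix.mul_assoc, hUU, Matrix.one_mul, Matrix.mul_assoc, hUU,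
          Matrix.mul_one]
      rw [← e1 (h73j_M β), hprop, Matrix.mul_smul, Matrix.smul_mul, e1]
    have hx : ∀ x : Fin d → ZMod 2, sgn (β x) = (c β / c β') * sgn (β' x) := by
      intro x
      have h6 : ∀ (x : Fin d → Fin 2) (γ : Module.Dual (ZMod 2) (Fin d → ZMod 2)),
          h73j_M γ x x = sgn (γ x) := fun x γ => Matrix.diagonal_apply_eq _ _
      have h7 := congrFun (congrFun hM x) x
      exact ((h6 x β).symm.trans h7).trans (congrArg (fun t => (c β / c β') * t) (h6 x β'))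
    have hk : c β / c β' = 1 := by
      have := hx 0
      rw [map_zero, map_zero, sgn_zero, mul_one] at this
      exact this.symm
    apply LinearMap.ext
    intro x
    have := hx x
    rw [hk, one_mul] at this
    exact h73j_sgn_inj this
  have hfin0 : Finite (Module.Dual (ZMod 2) (Fin d → ZMod 2)) :=
    Module.finite_of_finite (ZMod 2)
  have hfin1 : Finite ((Fin d → ZMod 2) × Module.Dual (ZMod 2) (Fin d → ZMod 2)) := inferInstance
  have hfin2 : Finite (Stb (E := Fin d → ZMod 2) (U.mulVec (e0 d))) :=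
    Subtype.finite
  have hcard := Nat.card_le_card_of_injective F hF
  have h1 := Module.natCard_eq_pow_finrank (K := ZMod 2)
    (V := Module.Dual (ZMod 2) (Fin d → ZMod 2))
  have h2 := Module.natCard_eq_pow_finrank (K := ZMod 2)
    (V := Stb (E := Fin d → ZMod 2) (U.mulVec (e0 d)))
  rw [h1, h2, Nat.card_zmod] at hcard
  have h3 := (Nat.pow_le_pow_iff_right (by norm_num)).mp hcard
  rw [Subspace.dual_finrank_eq] at h3
  exact h3

end

end H650SR

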