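import Mathlib
import Pool.Agent.Helper650_Stab.Clif

namespace H650SR

open Finset

noncomputable section

theorem h611_tens_mul {d : ℕ} (p q : Fin d → Matrix (Fin 2) (Fin 2) ℂ) :
    tens p * tens q = tens (fun j => p j * q j) := by
  ext x z
  rw [Matrix.mul_apply]
  unfold tens
  have h1 := Finset.prod_univ_sum (fun _ : Fin d => (Finset.univ : Finset (Fin 2)))
    (fun j t => p j (x j) t * q j t (z j))
  rw [Fintype.piFinset_univ] at h1
  simp only [Matrix.mul_apply]
  rw [h1]
  apply Finset.sum_congr rfl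
  intro y _
  rw [Finset.prod_mul_distrib]

theorem h611_tens_star {d : ℕ} (p : Fin d → Matrix (Fin 2) (Fin 2) ℂ) :
    star (tens p) = tens (fun j => star (p j)) := by
  ext x y
  rw [Matrix.star_apply]
  unfold tens
  simp only [Matrix.star_apply]
  exact map_prod (starRingEnd ℂ) _ _

theorem h611_tens_one {d : ℕ} :
    tens (fun _ : Fin d => (1 : Matrix (Fin 2) (Fin 2) ℂ)) = 1 := by
  ext x y
  unfold tens
  by_cases h : x = y
  · subst h
    rw [Matrix.one_apply_eq]
    apply Finset.prod_eq_one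
    intro j _
    exact Matrix.one_apply_eq _
  · rw [Matrix.one_apply_ne h]
    obtain ⟨j, hj⟩ := Function.ne_iff.1 h
    apply Finset.prod_eq_zero (Finset.mem_univ j)
    exact Matrix.one_apply_ne hj

theorem h611_pXX : pX * pX = 1 := by
  unfold pX
  ext i j
  fin_cases i <;> fin_cases j <;> simp [Matrix.mul_apply, Fin.sum_univ_two]

theorem h611_pXstar : star pX = pX := by
  unfold pX
  ext i j
  fin_cases i <;> fin_cases j <;> simp [Matrix.star_apply]

/-- `X` as an element of `GL_2` -/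
def h611_gX : GL (Fin 2) ℂ := ⟨pX, pX, h611_pXX, h611_pXX⟩

theorem h611_gX_mem : h611_gX ∈ P1 := by
  apply Subgroup.subset_closure
  left
  rfl

/-- the local flips -/
def h611_g {d : ℕ} (a : Fin d → Fin 2) (j : Fin d) : GL (Fin 2) ℂ :=
  if a j = 0 then 1 else h611_gX

theorem h611_g_mem {d : ℕ} (a : Fin d → Fin 2) (j : Fin d) : h611_g a j ∈ P1 := by
  unfold h611_g
  split_ifs
  · exact one_mem _
  · exact h611_gX_mem

theorem h611_g_sq {d : ℕ} (a : Fin d → Fin 2) (j : Fin d) :
    (h611_g a j : Matrix (Fin 2) (Fin 2) ℂ) * (h611_g a j : Matrix (Fin 2) (Fin 2) ℂ) = 1 := by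
  unfold h611_g
  split_ifs
  · simp
  · exact h611_pXX

theorem h611_g_star {d : ℕ} (a : Fin d → Fin 2) (j : Fin d) :
    star (h611_g a j : Matrix (Fin 2) (Fin 2) ℂ) = (h611_g a j : Matrix (Fin 2) (Fin 2) ℂ) := by
  unfold h611_g
  split_ifs
  · simp
  · exact h611_pXstar

/-- the flip -/
def h611_U {d : ℕ} (a : Fin d → Fin 2) : Matrix (Fin d → Fin 2) (Fin d → Fin 2) ℂ :=
  tens (fun j => (h611_g a j : Matrix (Fin 2) (Fin 2) ℂ))

theorem h611_U_star {d : ℕ} (a : Fin d → Fin 2) : star (h611_U a) = h611_U a := by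
  unfold h611_U
  rw [h611_tens_star]
  congr 1
  funext j
  exact h611_g_star a j

theorem h611_U_sq {d : ℕ} (a : Fin d → Fin 2) : h611_U a * h611_U a = 1 := by
  unfold h611_U
  rw [h611_tens_mul, ← h611_tens_one]
  congr 1
  funext j
  exact h611_g_sq a j

theorem h611_conj {d : ℕ} (a : Fin d → Fin 2) {M : Matrix (Fin d → Fin 2) (Fin d → Fin 2) ℂ}
    (hM : M ∈ Pd d) : h611_U a * M * h611_U a ∈ Pd d := by
  obtain ⟨p, hp, rfl⟩ := hM
  refine ⟨fun j => h611_g a j * p j * h611_g a j, fun j => ?_, ?_⟩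
  · exact mul_mem (mul_mem (h611_g_mem a j) (hp j)) (h611_g_mem a j)
  · unfold h611_U
    rw [h611_tens_mul, h611_tens_mul]
    rfl

theorem h611_U_mem {d : ℕ} (a : Fin d → Fin 2) : h611_U a ∈ Cliff d := by
  refine ⟨?_, fun M => ?_⟩
  · rw [Matrix.mem_unitaryGroup_iff, h611_U_star]
    exact h611_U_sq a
  · rw [h611_U_star]
    constructor
    · exact fun h => h611_conj a h
    · intro h
      have h1 := h611_conj a h
      have h2 : h611_U a * (h611_U a * M * h611_U a) * h611_U a = M := by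
        calc h611_U a * (h611_U a * M * h611_U a) * h611_U a
            = (h611_U a * h611_U a) * M * (h611_U a * h611_U a) := by
              simp only [Matrix.mul_assoc]
          _ = M := by rw [h611_U_sq, one_mul, mul_one]
      rwa [h2] at h1

theorem h611_U_entry {d : ℕ} (a : Fin d → Fin 2) (j : Fin d) (s : Fin 2) :
    (h611_g a j : Matrix (Fin 2) (Fin 2) ℂ) s 0 = if s = a j then 1 else 0 := by
  unfold h611_g
  have h2 : ∀ t : Fin 2, t = 0 ∨ t = 1 := by decide
  rcases h2 (a j) with h | h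
  · rw [if_pos h, h]
    simp [Matrix.one_apply]
  · rw [if_neg (by rw [h]; decide), h]
    show pX s 0 = _
    unfold pX
    rcases h2 s with h' | h' <;> subst h' <;> simp

/-- TARGET 1 -/
theorem single_mem_Stab (d : ℕ) (a : Fin d → Fin 2) :
    (Pi.single a 1 : (Fin d → Fin 2) → ℂ) ∈ StabStates d := by
  refine ⟨h611_U a, h611_U_mem a, ?_⟩
  unfold e0
  rw [Matrix.mulVec_single_one]
  funext x
  have h1 : (h611_U a).col 0 x = ∏ j, (if x j = a j then (1 : ℂ) else 0) := by
    show h611_U a x 0 = _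
    unfold h611_U tens
    apply Finset.prod_congr rfl
    intro j _
    exact h611_U_entry a j (x j)
  rw [h1]
  by_cases h : x = a
  · subst h
    rw [Pi.single_eq_same]
    symm
    apply Finset.prod_eq_one
    intro j _
    rw [if_pos rfl]
  · rw [Pi.single_eq_of_ne h]
    obtain ⟨j, hj⟩ := Function.ne_iff.1 h
    symm
    apply Finset.prod_eq_zero (Finset.mem_univ j)
    rw [if_neg hj]

/-- TARGET 2 -/
theorem stab_span (d : ℕ) (T : (Fin d → Fin 2) → ℂ) :
    ∃ (r : ℕ) (α : Fin r → ℂ) (t : Fin r → (Fin d → Fin 2) → ℂ),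
      (∀ i, t i ∈ StabStates d) ∧ T = ∑ i, α i • t i := by
  let eqv := (Fintype.equivFin (Fin d → Fin 2)).symm
  refine ⟨Fintype.card (Fin d → Fin 2), fun i => T (eqv i), fun i => Pi.single (eqv i) 1,
    fun i => single_mem_Stab d _, ?_⟩
  rw [Equiv.sum_comp eqv (fun a => T a • (Pi.single a 1 : (Fin d → Fin 2) → ℂ))]
  funext x
  rw [Finset.sum_apply]
  rw [Finset.sum_eq_single x]
  · simp
  · intro b _ hb
    simp [Pi.single_eq_of_ne hb.symm]
  · intro h
    exact absurd (Finset.mem_univ x) h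

/-- TARGET 3 -/
theorem stabR_spec (d : ℕ) (T : (Fin d → Fin 2) → ℂ) :
    ∃ (α : Fin (stabR T) → ℂ) (t : Fin (stabR T) → (Fin d → Fin 2) → ℂ),
      (∀ i, t i ∈ StabStates d) ∧ T = ∑ i, α i • t i := by
  have h := Nat.sInf_mem (s := {r | ∃ (α : Fin r → ℂ) (t : Fin r → (Fin d → Fin 2) → ℂ),
    (∀ i, t i ∈ StabStates d) ∧ T = ∑ i, α i • t i}) (stab_span d T)
  exact h

/-- TARGET 4 -/
theorem one_le_stabR (d : ℕ) : 1 ≤ stabR (vpow d) := by
  by_contra hcon
  have h0 : stabR (vpow d) = 0 := by omega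
  obtain ⟨α, t, _, h2⟩ := stabR_spec d (vpow d)
  have hE : IsEmpty (Fin (stabR (vpow d))) := by
    rw [h0]
    infer_instance
  rw [Finset.univ_eq_empty, Finset.sum_empty] at h2
  have h3 : vpow d 0 = 0 := by
    rw [h2]
    rfl
  have h4 : vpow d 0 = 1 := by
    unfold vpow
    simp
  rw [h4] at h3
  exact one_ne_zero h3

end

end H650SR

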