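import Mathlib

namespace H650SR

open Finset

theorem h128_half_lt_log_two : (1 : ℝ) / 2 < Real.log 2 := by
  have := Real.log_two_gt_d9
  linarith

/-- TARGET 1 -/
theorem asym1 (R : ℕ → ℕ) (h1 : ∀ d, 1 ≤ R d)
    (h : ∀ l d : ℕ, 36 * 2 ^ l ≤ d → 4 ^ l ≤ R d * (8 * l ^ 2 + 6 * l + 1)) :
    ∃ c : ℝ, 0 < c ∧ ∀ d : ℕ, 2 ≤ d → c * (d : ℝ) ^ 2 / (Real.log d) ^ 2 ≤ (R d : ℝ) := by
  refine ⟨1 / 233280, by norm_num, fun d hd => ?_⟩
  have hlog2 := h128_half_lt_log_two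
  have hdR : (2 : ℝ) ≤ d := by exact_mod_cast hd
  have hL2 : Real.log 2 ≤ Real.log d := Real.log_le_log (by norm_num) hdR
  have hLpos : 0 < Real.log d := by linarith
  have hL2pos : 0 < Real.log d ^ 2 := by positivity
  rw [div_le_iff₀ hL2pos]
  rcases Nat.lt_or_ge d 36 with hlt | hge
  · have hR1 : (1 : ℝ) ≤ R d := by exact_mod_cast h1 d
    have hd36 : (d : ℝ) ≤ 36 := by exact_mod_cast hlt.le
    have hL : (1 : ℝ) / 4 ≤ Real.log d ^ 2 := by nlinarith
    have h2 : (d : ℝ) ^ 2 ≤ 1296 := by nlinarith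
    have h3 : (1 : ℝ) / 4 ≤ R d * Real.log d ^ 2 := by nlinarith
    linarith
  · set l := Nat.log 2 (d / 36) with hl
    have hd0 : d / 36 ≠ 0 := by
      have : 1 ≤ d / 36 := (Nat.one_le_div_iff (by norm_num)).2 hge
      omega
    have hp1 : 2 ^ l ≤ d / 36 := Nat.pow_log_le_self 2 hd0
    have hp2 : d / 36 < 2 ^ (l + 1) := Nat.lt_pow_succ_log_self (by norm_num) _
    have hle : 36 * 2 ^ l ≤ d := by omega
    have hlt2 : d < 72 * 2 ^ l := by
      rw [pow_succ] at hp2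
      omega
    have hh := h l d hle
    have hhR : (4 : ℝ) ^ l ≤ R d * (8 * (l : ℝ) ^ 2 + 6 * l + 1) := by exact_mod_cast hh
    have hltR : (d : ℝ) < 72 * 2 ^ l := by exact_mod_cast hlt2
    have hleR : (36 : ℝ) * 2 ^ l ≤ d := by exact_mod_cast hle
    have h4 : (4 : ℝ) ^ l = (2 ^ l) ^ 2 := by
      rw [← pow_mul, mul_comm l 2, pow_mul]
      norm_num
    have hdsq : (d : ℝ) ^ 2 ≤ 5184 * 4 ^ l := by
      rw [h4]
      have hdn : (0 : ℝ) ≤ d := by positivity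
      nlinarith
    -- `l ≤ 2 log d`
    have hpow : (2 : ℝ) ^ l ≤ d := by
      have : (0 : ℝ) < 2 ^ l := by positivity
      linarith
    have hl1 : (l : ℝ) * Real.log 2 ≤ Real.log d := by
      rw [← Real.log_pow]
      exact Real.log_le_log (by positivity) hpow
    have hl2 : (l : ℝ) ≤ 2 * Real.log d := by
      have hln : (0 : ℝ) ≤ l := by positivity
      nlinarith
    have hL1 : 1 ≤ Real.log d := by
      have h5 : Real.log 4 ≤ Real.log d := Real.log_le_log (by norm_num) (by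
        have : (36 : ℝ) ≤ d := by exact_mod_cast hge
        linarith)
      have h6 : Real.log 4 = 2 * Real.log 2 := by
        rw [show (4 : ℝ) = 2 ^ 2 by norm_num, Real.log_pow]
        norm_num
      linarith
    have hln : (0 : ℝ) ≤ l := by positivity
    have hq : 8 * (l : ℝ) ^ 2 + 6 * l + 1 ≤ 45 * Real.log d ^ 2 := by nlinarith
    have hR0 : (0 : ℝ) ≤ R d := by positivity
    have h7 : (R d : ℝ) * (8 * (l : ℝ) ^ 2 + 6 * l + 1) ≤ R d * (45 * Real.log d ^ 2) :=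
      mul_le_mul_of_nonneg_left hq hR0
    nlinarith

/-- TARGET 2 -/
theorem asym2 (R : ℕ → ℕ) (c : ℝ) (hc : 0 < c)
    (h : ∀ d : ℕ, 2 ≤ d → c * (d : ℝ) ^ 2 / (Real.log d) ^ 2 ≤ (R d : ℝ)) :
    Filter.Tendsto (fun d : ℕ => (R d : ℝ) / d) Filter.atTop Filter.atTop := by
  have h1 : Filter.Tendsto (fun x : ℝ => Real.log x ^ 2 / x) Filter.atTop (nhds 0) :=
    (Real.isLittleO_pow_log_id_atTop (n := 2)).tendsto_div_nhds_zero
  have h2 : Filter.Tendsto (fun x : ℝ => Real.log x ^ 2 / x) Filter.atTop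
      (nhdsWithin 0 (Set.Ioi 0)) := by
    rw [tendsto_nhdsWithin_iff]
    refine ⟨h1, ?_⟩
    filter_upwards [Filter.eventually_gt_atTop (1 : ℝ)] with x hx
    have := Real.log_pos hx
    have hx0 : 0 < x := by linarith
    exact Set.mem_Ioi.2 (by positivity)
  have h3 : Filter.Tendsto (fun x : ℝ => (Real.log x ^ 2 / x)⁻¹) Filter.atTop Filter.atTop :=
    h2.inv_tendsto_nhdsGT_zero
  have h4 : Filter.Tendsto (fun d : ℕ => c * (Real.log (d : ℝ) ^ 2 / (d : ℝ))⁻¹) Filter.atTop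
      Filter.atTop :=
    (h3.comp tendsto_natCast_atTop_atTop).const_mul_atTop hc
  refine Filter.tendsto_atTop_mono' _ ?_ h4
  filter_upwards [Filter.eventually_ge_atTop 2] with d hd
  have hdR : (2 : ℝ) ≤ d := by exact_mod_cast hd
  have hd0 : (0 : ℝ) < d := by linarith
  rw [le_div_iff₀ hd0]
  refine le_trans (le_of_eq ?_) (h d hd)
  rw [inv_div]
  ring

end H650SR

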