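import Mathlib
import Pool.Agent.Helper650_Stab.Base

namespace H650SR

open Finset

noncomputable section

variable {E : Type} [AddCommGroup E] [Module (ZMod 2) E] [Fintype E]

/-- the data `δ` matches the function `f` -/
def h93a_Mt {n : ℕ} (δ : E × (Fin n → E × Module.Dual (ZMod 2) E × Fin 4)) (f : E → ℂ) : Prop :=
  f δ.1 ≠ 0 ∧
  (∀ i x, sgn ((δ.2 i).2.1 x) * f (x + (δ.2 i).1) = Complex.I ^ ((δ.2 i).2.2 : ℕ) * f x) ∧
  (∀ x, f x ≠ 0 → x + δ.1 ∈ Submodule.span (ZMod 2) (Set.range fun i => (δ.2 i).1))

omit [Fintype E] in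
theorem h93a_uniq {n : ℕ} (δ : E × (Fin n → E × Module.Dual (ZMod 2) E × Fin 4)) (f g : E → ℂ)
    (hf : h93a_Mt δ f) (hg : h93a_Mt δ g) (x : E) : f x = (f δ.1 / g δ.1) * g x := by
  obtain ⟨hf0, hf1, hf2⟩ := hf
  obtain ⟨hg0, hg1, hg2⟩ := hg
  set c : ℂ := f δ.1 / g δ.1 with hc
  have key : ∀ v ∈ Submodule.span (ZMod 2) (Set.range fun i => (δ.2 i).1),
      ∀ x, f x = c * g x → f (x + v) = c * g (x + v) := by
    intro v hv
    induction hv using Submodule.span_induction with
    | mem v hv =>
      obtain ⟨i, rfl⟩ := hv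
      intro x hx
      have h1 := hf1 i x
      have h2 := hg1 i x
      have h3 : sgn ((δ.2 i).2.1 x) * f (x + (δ.2 i).1) =
          sgn ((δ.2 i).2.1 x) * (c * g (x + (δ.2 i).1)) := by
        rw [h1, hx]
        linear_combination (-c) * h2
      exact mul_left_cancel₀ (sgn_ne_zero _) h3
    | zero => intro x hx; simpa using hx
    | add v w _ _ hv hw =>
      intro x hx
      rw [← add_assoc]
      exact hw _ (hv x hx)
    | smul t v _ hv =>
      intro x hx
      rcases zc t with rfl | rfl
      · simpa using hx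
      · simpa using hv x hx
  by_cases hx : x + δ.1 ∈ Submodule.span (ZMod 2) (Set.range fun i => (δ.2 i).1)
  · have h1 := key _ hx δ.1 (by rw [hc]; field_simp)
    have h2 : δ.1 + (x + δ.1) = x := by
      have : δ.1 + (x + δ.1) = x + (δ.1 + δ.1) := by abel
      rw [this, add_self_z, add_zero]
    rwa [h2] at h1
  · have h1 : f x = 0 := by
      by_contra h
      exact hx (hf2 x h)
    have h2 : g x = 0 := by
      by_contra h
      exact hx (hg2 x h)
    rw [h1, h2, mul_zero]

theorem h93a_fourth (c : ℂ) (t : ZMod 2) (h : c * c = sgn t) :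
    ∃ ε : Fin 4, c = Complex.I ^ (ε : ℕ) := by
  rcases zc t with rfl | rfl
  · rw [sgn_zero] at h
    have h1 : (c - 1) * (c + 1) = 0 := by linear_combination h
    rcases mul_eq_zero.1 h1 with h2 | h2
    · exact ⟨0, by simpa using sub_eq_zero.1 h2⟩
    · refine ⟨2, ?_⟩
      have : c = -1 := by linear_combination h2
      rw [this]
      simp
  · rw [sgn_one] at h
    have h1 : (c - Complex.I) * (c + Complex.I) = 0 := by
      linear_combination h - Complex.I_mul_I
    rcases mul_eq_zero.1 h1 with h2 | h2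
    · exact ⟨1, by simpa using sub_eq_zero.1 h2⟩
    · refine ⟨3, ?_⟩
      have : c = -Complex.I := by linear_combination h2
      rw [this]
      simp [Complex.I_pow_three]

omit [Fintype E] in
theorem h93a_add_add (x a : E) : x + a + a = x := by
  rw [add_assoc, add_self_z, add_zero]

theorem h93a_exists (f : E → ℂ) (hf : IsS f) (x₀ : E) (hx₀ : f x₀ ≠ 0) :
    ∃ δ : E × (Fin (Module.finrank (ZMod 2) E) → E × Module.Dual (ZMod 2) E × Fin 4),
      h93a_Mt δ f := by
  classical
  have : Module.Finite (ZMod 2) E := Module.Finite.of_finite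
  set K : Submodule (ZMod 2) (Module.Dual (ZMod 2) E) :=
    (Stb f).comap (LinearMap.inr (ZMod 2) E (Module.Dual (ZMod 2) E)) with hK
  set A : Submodule (ZMod 2) E :=
    (Stb f).map (LinearMap.fst (ZMod 2) E (Module.Dual (ZMod 2) E)) with hA
  -- eigenvalue facts
  have hsupp : ∀ x, f x ≠ 0 → x + x₀ ∈ K.dualCoannihilator := by
    intro x hx
    rw [Submodule.mem_dualCoannihilator]
    intro β hβ
    obtain ⟨c, hc⟩ := mem_Stb.1 (Submodule.mem_comap.1 hβ)
    simp only [LinearMap.inr_apply, add_zero] at hc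
    have h1 : sgn (β x) = c := mul_right_cancel₀ hx (hc x)
    have h2 : sgn (β x₀) = c := mul_right_cancel₀ hx₀ (hc x₀)
    have h3 : sgn (β (x + x₀)) = 1 := by
      rw [map_add, sgn_add, h1, ← h2, sgn_mul_self]
    rcases zc (β (x + x₀)) with h4 | h4
    · exact h4
    · exfalso
      rw [h4, sgn_one] at h3
      norm_num at h3
  have hAK : A ≤ K.dualCoannihilator := by
    intro a ha
    obtain ⟨⟨a', β⟩, hp, rfl⟩ := Submodule.mem_map.1 ha
    simp only [LinearMap.fst_apply]
    obtain ⟨c, hc⟩ := mem_Stb.1 hp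
    simp only at hc
    have h1 : f (x₀ + a') ≠ 0 := by
      intro h0
      have h2 := hc (x₀ + a')
      rw [h93a_add_add, h0, mul_zero] at h2
      exact (mul_ne_zero (sgn_ne_zero _) hx₀) h2
    have h3 := hsupp _ h1
    have h4 : x₀ + a' + x₀ = a' := by
      rw [add_comm x₀ a', h93a_add_add]
    rwa [h4] at h3
  have hdim : Module.finrank (ZMod 2) (Stb f) ≤
      Module.finrank (ZMod 2) A + Module.finrank (ZMod 2) K := by
    have h1 := LinearMap.finrank_range_add_finrank_ker (K := ZMod 2) (V := Stb f) (V₂ := E)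
      ((LinearMap.fst (ZMod 2) E (Module.Dual (ZMod 2) E)).domRestrict (Stb f))
    rw [LinearMap.range_domRestrict] at h1
    have h2 : Module.finrank (ZMod 2) (LinearMap.ker
        ((LinearMap.fst (ZMod 2) E (Module.Dual (ZMod 2) E)).domRestrict (Stb f))) ≤
        Module.finrank (ZMod 2) K := by
      let φ : LinearMap.ker
        ((LinearMap.fst (ZMod 2) E (Module.Dual (ZMod 2) E)).domRestrict (Stb f)) →ₗ[ZMod 2]
          K := 
        LinearMap.codRestrict K ((LinearMap.snd (ZMod 2) E (Module.Dual (ZMod 2) E)).comp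
          ((Stb f).subtype.comp (Submodule.subtype _))) (by
            rintro ⟨⟨⟨a, β⟩, hp⟩, hq⟩
            have h0 : a = 0 := by simpa using hq
            subst h0
            simpa [hK] using hp)
      refine LinearMap.finrank_le_finrank_of_injective (f := φ) ?_
      rintro ⟨⟨⟨a, β⟩, hp⟩, hq⟩ ⟨⟨⟨a', β'⟩, hp'⟩, hq'⟩ h
      have h0 : a = 0 := by simpa using hq
      have h0' : a' = 0 := by simpa using hq'
      have h3 : β = β' := by
        have := congrArg Subtype.val h
        simpa [φ] using this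
      subst h0 h0' h3
      rfl
    rw [← h1]
    exact Nat.add_le_add_left h2 _
  have hco := Subspace.finrank_add_finrank_dualCoannihilator_eq K
  have hAeq : A = K.dualCoannihilator := by
    apply Submodule.eq_of_le_of_finrank_le hAK
    have h1 : Module.finrank (ZMod 2) E ≤ Module.finrank (ZMod 2) (Stb f) := hf
    omega
  -- spanning family
  obtain ⟨g, hg⟩ := LinearMap.exists_leftInverse_of_injective A.subtype (Submodule.ker_subtype A)
  let b := Module.finBasis (ZMod 2) E
  have hspan : Submodule.span (ZMod 2) (Set.range fun i => ((g (b i) : A) : E)) = A := by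
    have h1 : (Set.range fun i => ((g (b i) : A) : E)) =
        (A.subtype.comp g) '' (Set.range b) := by
      rw [← Set.range_comp]
      rfl
    rw [h1, Submodule.span_image, b.span_eq, Submodule.map_top]
    apply le_antisymm
    · rintro _ ⟨x, rfl⟩
      simp
    · intro x hx
      refine ⟨x, ?_⟩
      have := LinearMap.congr_fun hg ⟨x, hx⟩
      simp only [LinearMap.comp_apply, Submodule.subtype_apply, LinearMap.id_apply] at this ⊢
      rw [this]
  have hex : ∀ i : Fin (Module.finrank (ZMod 2) E), ∃ (β : Module.Dual (ZMod 2) E) (ε : Fin 4),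
      ∀ x, sgn (β x) * f (x + ((g (b i) : A) : E)) = Complex.I ^ (ε : ℕ) * f x := by
    intro i
    obtain ⟨⟨a', β⟩, hp, hpa⟩ := Submodule.mem_map.1 (g (b i)).2
    simp only [LinearMap.fst_apply] at hpa
    obtain ⟨c, hc⟩ := mem_Stb.1 hp
    simp only at hc
    have hcc : c * c = sgn (β a') := by
      have h1 := hc x₀
      have h2 := hc (x₀ + a')
      rw [h93a_add_add, map_add, sgn_add] at h2
      have h3 := sgn_mul_self (β x₀)
      have h4 : (c * c) * f x₀ = sgn (β a') * f x₀ := by
        calc (c * c) * f x₀ = c * (c * f x₀) := by ring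
          _ = c * (sgn (β x₀) * f (x₀ + a')) := by rw [h1]
          _ = sgn (β x₀) * (c * f (x₀ + a')) := by ring
          _ = sgn (β x₀) * (sgn (β x₀) * sgn (β a') * f x₀) := by rw [h2]
          _ = (sgn (β x₀) * sgn (β x₀)) * sgn (β a') * f x₀ := by ring
          _ = _ := by rw [h3, one_mul]
      exact mul_right_cancel₀ hx₀ h4
    obtain ⟨ε, hε⟩ := h93a_fourth c _ hcc
    refine ⟨β, ε, fun x => ?_⟩
    rw [← hε, ← hpa]
    exact hc x
  choose β ε hβε using hex
  refine ⟨⟨x₀, fun i => (((g (b i) : A) : E), β i, ε i)⟩, hx₀, fun i x => hβε i x, fun x hx => ?_⟩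
  show x + x₀ ∈ Submodule.span (ZMod 2) (Set.range fun i => ((g (b i) : A) : E))
  rw [hspan, hAeq]
  exact hsupp x hx

/- HINT.  Put n = Module.finrank (ZMod 2) E.  Data type
D = E × (Fin n → E × Module.Dual (ZMod 2) E × Fin 4)  (Module.Dual is finite; card D = 2^n * (2^n * 2^n * 4)^n,
use Module.card_eq_pow_finrank / Subspace.dual_finrank_eq).
Say that δ = (x₀, fun i => (a i, β i, ε i)) matches f if f x₀ ≠ 0, for all i and x:
sgn (β i x) * f (x + a i) = I ^ (ε i : ℕ) * f x, and for all x with f x ≠ 0: x + x₀ ∈ span (range a).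
(1) If f and g match the same δ then f x = (f x₀ / g x₀) * g x for all x: outside x₀ + span both vanish,
on x₀ + span use Submodule.span_induction (the set of all v with f (x+v) = c g (x+v) iff f x = c g x ...).
(2) Every f with IsS f that is not identically 0 matches some δ: let L = Stb f, A = image of L under
the first projection, K = {β | (0,β) ∈ L}; finrank A + finrank K = finrank L >= n.  Take f x₀ ≠ 0.  For β ∈ K:
sgn (β x) f x = c f x for all x, so c = sgn (β x₀) and β (x + x₀) = 0 whenever f x ≠ 0.  So the support of f is in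
x₀ + K⊥, where K⊥ = K.dualCoannihilator has dimension n - finrank K <= finrank A.  For (a,β) ∈ L the
eigenvalue c is nonzero (apply at x₀ + a), so f (x₀ + a) ≠ 0, so A <= K⊥; hence A = K⊥.  The eigenvalues satisfy
c^2 = sgn (β a), so c^4 = 1 and c = I ^ ε for some ε < 4.  A is spanned by n vectors (A has a complement / there is
a linear surjection E → A, apply it to a basis of E indexed by Fin n).
(3) Choose for every δ a function R δ matching it if there is one, and 0 otherwise. -/
/-- TARGET 1 -/
theorem exists_repr : ∃ (D : Type) (_ : Fintype D) (R : D → (E → ℂ)),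
    Fintype.card D ≤ 2 ^ (2 * (Module.finrank (ZMod 2) E) ^ 2 + 3 * Module.finrank (ZMod 2) E) ∧
    ∀ f : E → ℂ, IsS f → ∃ (δ : D) (c : ℂ), ∀ x, f x = c * R δ x := by
  classical
  have : Module.Finite (ZMod 2) E := Module.Finite.of_finite
  have : Finite (Module.Dual (ZMod 2) E) := Module.finite_of_finite (ZMod 2)
  let _ : Fintype (Module.Dual (ZMod 2) E) := Fintype.ofFinite _
  refine ⟨E × (Fin (Module.finrank (ZMod 2) E) → E × Module.Dual (ZMod 2) E × Fin 4),
    inferInstance, fun δ => if h : ∃ g, h93a_Mt δ g then h.choose else 0, ?_, ?_⟩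
  · have h1 : Fintype.card E = 2 ^ Module.finrank (ZMod 2) E := by
      have := Module.card_eq_pow_finrank (K := ZMod 2) (V := E)
      rwa [ZMod.card] at this
    have h2 : Fintype.card (Module.Dual (ZMod 2) E) = 2 ^ Module.finrank (ZMod 2) E := by
      have := Module.card_eq_pow_finrank (K := ZMod 2) (V := Module.Dual (ZMod 2) E)
      rwa [ZMod.card, Subspace.dual_finrank_eq] at this
    rw [Fintype.card_prod, Fintype.card_fun, Fintype.card_prod, Fintype.card_prod, h1, h2,
      Fintype.card_fin, Fintype.card_fin]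
    apply le_of_eq
    have h4 : (4 : ℕ) = 2 ^ 2 := by norm_num
    rw [h4, ← pow_add, ← pow_add, ← pow_mul, ← pow_add]
    congr 1
    ring
  · intro f hf
    by_cases h0 : ∃ x₀, f x₀ ≠ 0
    · obtain ⟨x₀, hx₀⟩ := h0
      obtain ⟨δ, hδ⟩ := h93a_exists f hf x₀ hx₀
      have h : ∃ g, h93a_Mt δ g := ⟨f, hδ⟩
      refine ⟨δ, f δ.1 / h.choose δ.1, fun x => ?_⟩
      simp only [dif_pos h]
      exact h93a_uniq δ f h.choose hδ h.choose_spec x
    · push Not at h0
      refine ⟨⟨0, fun _ => (0, 0, 0)⟩, 0, fun x => ?_⟩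
      rw [h0 x, zero_mul]

end

end H650SR

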