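import Mathlib
import Pool.Agent.Helper650_Stab.Base

namespace H650SR

open Finset

noncomputable section

/- HINT for TARGET 1: rows ρ x = (fun i => t i x) : Fin r → ℂ.  Choose a subset B of X such that ρ restricted to B is
linearly independent and spans the span of all rows (exists_linearIndependent and so on), so B.card ≤ r.
If κ sgn (F x) = ∑ α i t i x and κ sgn (G x) = ∑ β i t i x and F = G on B, the linear functional
v ↦ ∑ (α i - β i) v i vanishes on ρ x for x ∈ B, hence on all rows, so κ sgn (F x) = κ sgn (G x) for all x, so F = G.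
HINT for TARGET 2: given the T of every F write T i = c i • R (δ i), so F ↦ δ maps the 2^(card X) functions
F to Fin r → D, and by TARGET 1 every fibre has at most 2^r elements. -/
theorem h457_sgn_inj {s t : ZMod 2} (h : sgn s = sgn t) : s = t := by
  rcases zc s with rfl | rfl <;> rcases zc t with rfl | rfl
  · rfl
  · rw [sgn_zero, sgn_one] at h; norm_num at h
  · rw [sgn_zero, sgn_one] at h; norm_num at h
  · rfl

/-- TARGET 1 -/
theorem sign_count {X : Type} [Fintype X] [DecidableEq X] (r : ℕ) (t : Fin r → X → ℂ)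
    (κ : ℂ) (hκ : κ ≠ 0) :
    ∃ B : Finset X, B.card ≤ r ∧ ∀ F G : X → ZMod 2,
      (∃ α : Fin r → ℂ, ∀ x, κ * sgn (F x) = ∑ i, α i * t i x) →
      (∃ α : Fin r → ℂ, ∀ x, κ * sgn (G x) = ∑ i, α i * t i x) →
      (∀ x ∈ B, F x = G x) → F = G := by
  classical
  let ρ : X → (Fin r → ℂ) := fun x i => t i x
  obtain ⟨ι, a, ha, hspan, hli⟩ := exists_linearIndependent' ℂ ρ
  have hfin : Finite ι := Finite.of_injective a ha
  have : Fintype ι := Fintype.ofFinite ι
  refine ⟨Finset.univ.image a, ?_, ?_⟩
  · rw [Finset.card_image_of_injective _ ha, Finset.card_univ]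
    have := hli.fintype_card_le_finrank
    simpa using this
  · rintro F G ⟨α, hα⟩ ⟨β, hβ⟩ hFG
    let L : (Fin r → ℂ) →ₗ[ℂ] ℂ := ∑ i, (α i - β i) • LinearMap.proj i
    have hL : ∀ v, L v = ∑ i, (α i - β i) * v i := by
      intro v
      simp [L]
    have h1 : ∀ x, L (ρ x) = κ * sgn (F x) - κ * sgn (G x) := by
      intro x
      rw [hL, hα, hβ, ← Finset.sum_sub_distrib]
      apply Finset.sum_congr rfl
      intro i _
      show (α i - β i) * t i x = _
      ring
    have h2 : Submodule.span ℂ (Set.range ρ) ≤ LinearMap.ker L := by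
      rw [← hspan, Submodule.span_le]
      rintro _ ⟨j, rfl⟩
      rw [SetLike.mem_coe, LinearMap.mem_ker]
      show L (ρ (a j)) = 0
      rw [h1, hFG (a j) (Finset.mem_image_of_mem a (Finset.mem_univ j)), sub_self]
    funext x
    have h3 : ρ x ∈ LinearMap.ker L := h2 (Submodule.subset_span ⟨x, rfl⟩)
    rw [LinearMap.mem_ker, h1, ← mul_sub] at h3
    have h4 := (mul_eq_zero.mp h3).resolve_left hκ
    exact h457_sgn_inj (sub_eq_zero.mp h4)

/-- TARGET 2 -/
theorem repr_count {X : Type} [Fintype X] [DecidableEq X] (r : ℕ)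
    (D : Type) [Fintype D] (R : D → X → ℂ) (κ : ℂ) (hκ : κ ≠ 0)
    (h : ∀ F : X → ZMod 2, ∃ (δ : Fin r → D) (c : Fin r → ℂ),
      ∀ x, κ * sgn (F x) = ∑ i, c i * R (δ i) x) :
    2 ^ Fintype.card X ≤ (Fintype.card D) ^ r * 2 ^ r := by
  classical
  choose δ c hc using h
  have h1 := Finset.card_le_mul_card_image_of_maps_to (f := δ)
    (s := (Finset.univ : Finset (X → ZMod 2))) (t := (Finset.univ : Finset (Fin r → D)))
    (fun _ _ => Finset.mem_univ _) (2 ^ r) (by
      intro b _
      obtain ⟨B, hB, hinj⟩ := sign_count (X := X) r (fun i x => R (b i) x) κ hκ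
      have h2 : (Finset.univ.filter (fun F : X → ZMod 2 => δ F = b)).card
          ≤ (Finset.univ : Finset (B → ZMod 2)).card := by
        apply Finset.card_le_card_of_injOn (fun F x => F x.1) (fun _ _ => Finset.mem_univ _)
        intro F hF G hG hFG
        rw [Finset.mem_coe, Finset.mem_filter] at hF hG
        apply hinj F G
        · exact ⟨c F, fun x => by rw [hc F x, hF.2]⟩
        · exact ⟨c G, fun x => by rw [hc G x, hG.2]⟩
        · intro x hx
          exact congrFun hFG ⟨x, hx⟩
      refine h2.trans ?_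
      rw [Finset.card_univ, Fintype.card_fun, ZMod.card, Fintype.card_coe]
      exact Nat.pow_le_pow_right (by norm_num) hB)
  rw [Finset.card_univ, Finset.card_univ, Fintype.card_fun, Fintype.card_fun, ZMod.card,
    Fintype.card_fin] at h1
  rw [mul_comm]
  exact h1

end

end H650SR

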