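import Mathlib
import Pool.Agent.Helper650_Stab.Base
import Pool.Agent.Helper650_Stab.P3

namespace H650SR

open Finset

noncomputable section

variable {E F : Type} [AddCommGroup E] [Module (ZMod 2) E] [Finite E]
  [AddCommGroup F] [Module (ZMod 2) F] [Finite F]


theorem h774s_aff (g : E →ₗ[ZMod 2] ZMod 2) (a : ZMod 2) : Obt 1 (fun x => vv (g x + a)) :=
  Obt_comp' g (fun t => vv (t + a)) (Obt_trans' a vv Obt_vv')

theorem h774s_vv0 : vv 0 = 1 := by simp [vv]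

theorem h774s_vv1 : vv 1 = (Real.sqrt 2 : ℂ) := by
  have h : (1 : ZMod 2) ≠ 0 := by decide
  simp [vv, h]

/-- TARGET 1. -/
theorem Obt_nand : Obt 9 (fun p : ZMod 2 × ZMod 2 => if p.1 * p.2 = 0 then (1 : ℂ) else 0) := by
  set X : ((ZMod 2 × ZMod 2) × ZMod 2) →ₗ[ZMod 2] ZMod 2 :=
    (LinearMap.fst (ZMod 2) (ZMod 2) (ZMod 2)).comp
      (LinearMap.fst (ZMod 2) (ZMod 2 × ZMod 2) (ZMod 2)) with hX
  set Y : ((ZMod 2 × ZMod 2) × ZMod 2) →ₗ[ZMod 2] ZMod 2 :=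
    (LinearMap.snd (ZMod 2) (ZMod 2) (ZMod 2)).comp
      (LinearMap.fst (ZMod 2) (ZMod 2 × ZMod 2) (ZMod 2)) with hY
  set W : ((ZMod 2 × ZMod 2) × ZMod 2) →ₗ[ZMod 2] ZMod 2 :=
    LinearMap.snd (ZMod 2) (ZMod 2 × ZMod 2) (ZMod 2) with hW
  have h0 : Obt 0 (fun q => sgn (W q)) := Obt_IsS' _ (IsS_lin' W)
  have h1 := Obt_mul' _ _ h0 (h774s_aff W 0)
  have h2 := Obt_mul' _ _ h1 (h774s_aff W 0)
  have h3 := Obt_mul' _ _ h2 (h774s_aff W 0)
  have h4 := Obt_mul' _ _ h3 (h774s_aff X 1)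
  have h5 := Obt_mul' _ _ h4 (h774s_aff Y 1)
  have h6 := Obt_mul' _ _ h5 (h774s_aff (X + Y) 0)
  have h7 := Obt_mul' _ _ h6 (h774s_aff (Y + W) 0)
  have h8 := Obt_mul' _ _ h7 (h774s_aff (X + W) 0)
  have h9 := Obt_mul' _ _ h8 (h774s_aff (X + Y + W) 1)
  have h10 := Obt_smul' ((-6 * (Real.sqrt 2 : ℂ))⁻¹) _ (Obt_push' _ h9)
  refine Obt_mono' (c := 0 + 1 + 1 + 1 + 1 + 1 + 1 + 1 + 1 + 1) (by norm_num) _ ?_
  convert h10 using 2 with p
  obtain ⟨x, y⟩ := p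
  have hs : (Real.sqrt 2 : ℂ) ^ 2 = 2 := by
    rw [← Complex.ofReal_pow, Real.sq_sqrt (by norm_num)]
    norm_num
  have hs0 : (Real.sqrt 2 : ℂ) ≠ 0 := by
    intro h
    rw [h] at hs
    norm_num at hs
  have e11 : (1 : ZMod 2) + 1 = 0 := one_add_one_Z
  have e10 : (1 : ZMod 2) ≠ 0 := by decide
  have hu : (Finset.univ : Finset (ZMod 2)) = {0, 1} := by decide
  rw [hu, Finset.sum_pair (by decide : (0 : ZMod 2) ≠ 1)]
  simp only [hX, hY, hW, LinearMap.add_apply, LinearMap.comp_apply, LinearMap.fst_apply,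
    LinearMap.snd_apply]
  set r : ℂ := (Real.sqrt 2 : ℂ) with hr
  have h6 : (-6 * r) ≠ 0 := mul_ne_zero (by norm_num) hs0
  rw [eq_inv_mul_iff_mul_eq₀ h6]
  rcases zc x with rfl | rfl <;> rcases zc y with rfl | rfl
  · simp only [mul_zero, if_true, add_zero, zero_add, sgn_zero, sgn_one, h774s_vv0, h774s_vv1, e11,
      ← hr]
    linear_combination (r ^ 5 + 2 * r ^ 3 + 3 * r) * hs
  · simp only [zero_mul, if_true, add_zero, zero_add, sgn_zero, sgn_one, h774s_vv0, h774s_vv1, e11,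
      ← hr]
    linear_combination (r ^ 5 + 2 * r ^ 3 + 3 * r) * hs
  · simp only [mul_zero, if_true, add_zero, zero_add, sgn_zero, sgn_one, h774s_vv0, h774s_vv1, e11,
      ← hr]
    linear_combination (r ^ 5 + 2 * r ^ 3 + 3 * r) * hs
  · simp only [mul_one, e10, if_false, add_zero, zero_add, sgn_zero, sgn_one, h774s_vv0, h774s_vv1,
      e11, ← hr]
    ring

/-- TARGET 2. -/
theorem Obt_and :
    Obt 18 (fun p : ZMod 2 × ZMod 2 × ZMod 2 => if p.2.2 = p.1 * p.2.1 then (1 : ℂ) else 0) := by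
  set X : (ZMod 2 × ZMod 2 × ZMod 2) →ₗ[ZMod 2] ZMod 2 :=
    LinearMap.fst (ZMod 2) (ZMod 2) (ZMod 2 × ZMod 2) with hX
  set Y : (ZMod 2 × ZMod 2 × ZMod 2) →ₗ[ZMod 2] ZMod 2 :=
    (LinearMap.fst (ZMod 2) (ZMod 2) (ZMod 2)).comp
      (LinearMap.snd (ZMod 2) (ZMod 2) (ZMod 2 × ZMod 2)) with hY
  set Z : (ZMod 2 × ZMod 2 × ZMod 2) →ₗ[ZMod 2] ZMod 2 :=
    (LinearMap.snd (ZMod 2) (ZMod 2) (ZMod 2)).comp
      (LinearMap.snd (ZMod 2) (ZMod 2) (ZMod 2 × ZMod 2)) with hZ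
  have h1 := Obt_comp' (LinearMap.prod Z (X + Y)) _ Obt_nand
  have h2 := Obt_comp' (LinearMap.prod (X + Z) (Y + Z)) _ Obt_nand
  have h3 := Obt_mul' _ _ h1 h2
  refine Obt_mono' (c := 9 + 9) (by norm_num) _ ?_
  convert h3 using 2 with p
  obtain ⟨x, y, z⟩ := p
  change (if z = x * y then (1 : ℂ) else 0) =
    (if z * (x + y) = 0 then (1 : ℂ) else 0) * (if (x + z) * (y + z) = 0 then (1 : ℂ) else 0)
  have key : (z = x * y) ↔ (z * (x + y) = 0 ∧ (x + z) * (y + z) = 0) := by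
    revert x y z
    decide
  by_cases h : z = x * y
  · rw [if_pos h, if_pos (key.mp h).1, if_pos (key.mp h).2, mul_one]
  · rw [if_neg h]
    have h' := mt key.mpr h
    rw [not_and_or] at h'
    rcases h' with h' | h'
    · rw [if_neg h', zero_mul]
    · rw [if_neg h', mul_zero]

end

end H650SR

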