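import Mathlib
import Pool.Agent.Helper650_Stab.Base
import Pool.Agent.Helper650_Stab.J8
import Pool.Agent.Helper650_Stab.P3

namespace H650SR

open Finset

noncomputable section

variable {E F : Type} [AddCommGroup E] [Module (ZMod 2) E] [Finite E]
  [AddCommGroup F] [Module (ZMod 2) F] [Finite F]




/-- one-hot encoding: e is the indicator of a -/
def hot {A : Type} [Fintype A] [DecidableEq A] (p : A × (A → ZMod 2)) : ℂ :=
  if p.2 = Pi.single p.1 1 then 1 else 0


theorem k72_iff {A : Type} [DecidableEq A] (t : ZMod 2) (a : A) (e : ZMod 2 × A → ZMod 2) :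
    e = Pi.single (t, a) 1 ↔ (∀ α, e (1, α) = t * (Pi.single a 1 : A → ZMod 2) α) ∧
      (∀ α, e (0, α) + (Pi.single a 1 : A → ZMod 2) α + e (1, α) = 0) := by
  have h10 : (1 : ZMod 2) ≠ 0 := by decide
  have h01 : (0 : ZMod 2) ≠ 1 := by decide
  have h11 : (1 : ZMod 2) + 1 = 0 := by decide
  constructor
  · rintro rfl
    constructor
    · intro α
      rw [Pi.single_apply, Pi.single_apply]
      by_cases hα : α = a
      · subst hα
        rcases zc t with rfl | rfl
        · rw [if_neg (by simp), zero_mul]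
        · rw [if_pos rfl, if_pos rfl, mul_one]
      · rw [if_neg hα, mul_zero, if_neg]
        intro h
        exact hα (Prod.ext_iff.1 h).2
    · intro α
      rw [Pi.single_apply, Pi.single_apply, Pi.single_apply]
      by_cases hα : α = a
      · subst hα
        rcases zc t with rfl | rfl
        · rw [if_pos rfl, if_pos rfl, if_neg (by simp), add_zero, h11]
        · rw [if_pos rfl, if_neg (by simp), if_pos rfl, zero_add, h11]
      · rw [if_neg hα, if_neg, if_neg]
        · simp
        · intro h
          exact hα (Prod.ext_iff.1 h).2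
        · intro h
          exact hα (Prod.ext_iff.1 h).2
  · rintro ⟨h1, h2⟩
    funext ⟨s, α⟩
    rw [Pi.single_apply]
    have h3 := h1 α
    have h4 := h2 α
    rw [Pi.single_apply] at h3 h4
    by_cases hα : α = a
    · subst hα
      rw [if_pos rfl] at h3 h4
      rcases zc s with rfl | rfl <;> rcases zc t with rfl | rfl
      · rw [if_pos rfl]
        rw [h3, zero_mul, add_zero] at h4
        have h5 : e (0, α) + 1 + 1 = 1 := by rw [h4, zero_add]
        rw [add_assoc, h11, add_zero] at h5
        exact h5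
      · rw [if_neg (by simp)]
        rw [h3, mul_one, add_assoc, h11, add_zero] at h4
        exact h4
      · rw [if_neg (by simp), h3, zero_mul]
      · rw [if_pos rfl, h3, mul_one]
    · rw [if_neg hα] at h3 h4
      rw [if_neg (fun h => hα (Prod.ext_iff.1 h).2)]
      rcases zc s with rfl | rfl
      · rw [h3, mul_zero, add_zero, add_zero] at h4
        exact h4
      · rw [h3, mul_zero]

/-- TARGET 1.  HINT: for (t,a) : ZMod 2 × A and e : ZMod 2 × A → ZMod 2
hot ((t,a), e) = ∑ e' : A → ZMod 2, hot (a, e') * (∏ α : A, if e (1,α) = t * e' α then 1 else 0) *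
   (if (fun α => e (0,α) + e' α + e (1,α)) = 0 then 1 else 0);
the middle product is Obt (card A * 18) by Obt_prod', Obt_comp' and Obt_and, the last factor is the pullback of the
delta function of A → ZMod 2 (cost 0). -/
theorem Obt_hot_step {A : Type} [AddCommGroup A] [Module (ZMod 2) A] [Fintype A] [DecidableEq A]
    {c : ℕ} (h : Obt c (hot (A := A))) :
    Obt (c + Fintype.card A * 18) (hot (A := ZMod 2 × A)) := by
  classical
  -- linear maps
  let L1 : ((ZMod 2 × A) × (ZMod 2 × A → ZMod 2)) × (A → ZMod 2) →ₗ[ZMod 2]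
      A × (A → ZMod 2) :=
    { toFun := fun p => (p.1.1.2, p.2), map_add' := fun _ _ => rfl, map_smul' := fun _ _ => rfl }
  let L2 : A → (((ZMod 2 × A) × (ZMod 2 × A → ZMod 2)) × (A → ZMod 2) →ₗ[ZMod 2]
      ZMod 2 × ZMod 2 × ZMod 2) := fun α =>
    { toFun := fun p => (p.1.1.1, p.2 α, p.1.2 (1, α)), map_add' := fun _ _ => rfl,
      map_smul' := fun _ _ => rfl }
  let L3 : ((ZMod 2 × A) × (ZMod 2 × A → ZMod 2)) × (A → ZMod 2) →ₗ[ZMod 2] (A → ZMod 2) :=
    { toFun := fun p => fun α => p.1.2 (0, α) + p.2 α + p.1.2 (1, α)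
      map_add' := by
        intro p q
        funext α
        show (p.1.2 (0, α) + q.1.2 (0, α)) + (p.2 α + q.2 α) + (p.1.2 (1, α) + q.1.2 (1, α)) =
          (p.1.2 (0, α) + p.2 α + p.1.2 (1, α)) + (q.1.2 (0, α) + q.2 α + q.1.2 (1, α))
        ring
      map_smul' := by
        intro r p
        funext α
        show r * p.1.2 (0, α) + r * p.2 α + r * p.1.2 (1, α) =
          r * (p.1.2 (0, α) + p.2 α + p.1.2 (1, α))
        ring }
  have h1 := Obt_comp' L1 _ h
  have h2 := Obt_prod' (E := ((ZMod 2 × A) × (ZMod 2 × A → ZMod 2)) × (A → ZMod 2))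
    (fun α : A => fun p => (fun p : ZMod 2 × ZMod 2 × ZMod 2 =>
      if p.2.2 = p.1 * p.2.1 then (1 : ℂ) else 0) (L2 α p)) (fun α => Obt_comp' (L2 α) _ Obt_and)
  have h3 := Obt_comp' L3 _ (Obt_IsS' _ (IsS_delta' (E := A → ZMod 2)))
  have h4 := Obt_push' _ (Obt_mul' _ _ (Obt_mul' _ _ h1 h2) h3)
  rw [Nat.add_zero] at h4
  convert h4 using 1
  funext x
  obtain ⟨⟨t, a⟩, e⟩ := x
  show hot ((t, a), e) = ∑ e' : A → ZMod 2, (hot (a, e') *
    (∏ α : A, if e (1, α) = t * e' α then (1 : ℂ) else 0)) *
    (if (fun α => e (0, α) + e' α + e (1, α)) = 0 then (1 : ℂ) else 0)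
  rw [Finset.sum_eq_single (Pi.single a 1 : A → ZMod 2)]
  · have hh : hot (a, (Pi.single a 1 : A → ZMod 2)) = 1 := by
      unfold hot
      rw [if_pos rfl]
    rw [hh, one_mul]
    have hiff := k72_iff t a e
    by_cases hc : ∀ α, e (1, α) = t * (Pi.single a 1 : A → ZMod 2) α
    · have hp : (∏ α : A, if e (1, α) = t * (Pi.single a 1 : A → ZMod 2) α then (1 : ℂ) else 0) =
          1 := Finset.prod_eq_one fun α _ => if_pos (hc α)
      rw [hp, one_mul]
      unfold hot
      by_cases hd : (fun α => e (0, α) + (Pi.single a 1 : A → ZMod 2) α + e (1, α)) = 0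
      · rw [if_pos hd, if_pos (hiff.2 ⟨hc, fun α => congrFun hd α⟩)]
      · rw [if_neg hd, if_neg]
        intro h5
        exact hd (funext (hiff.1 h5).2)
    · have hc' := hc
      push Not at hc'
      obtain ⟨α, hα⟩ := hc'
      have hp : (∏ α : A, if e (1, α) = t * (Pi.single a 1 : A → ZMod 2) α then (1 : ℂ) else 0) =
          0 := Finset.prod_eq_zero (Finset.mem_univ α) (if_neg hα)
      rw [hp, zero_mul]
      unfold hot
      rw [if_neg]
      intro h5
      exact hc (hiff.1 h5).1
  · intro e' _ he'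
    have hh : hot (a, e') = 0 := by
      unfold hot
      rw [if_neg he']
    rw [hh, zero_mul, zero_mul]
  · intro h5
    exact absurd (Finset.mem_univ _) h5

/-- TARGET 2.  HINT: hot (a', e') = hot (e a', e' ∘ e.symm). -/
theorem Obt_hot_equiv {A A' : Type} [AddCommGroup A] [Module (ZMod 2) A] [Fintype A] [DecidableEq A]
    [AddCommGroup A'] [Module (ZMod 2) A'] [Fintype A'] [DecidableEq A']
    (e : A' ≃ₗ[ZMod 2] A) {c : ℕ} (h : Obt c (hot (A := A))) : Obt c (hot (A := A')) := by
  let g : A' × (A' → ZMod 2) →ₗ[ZMod 2] A × (A → ZMod 2) :=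
    { toFun := fun p => (e p.1, fun x => p.2 (e.symm x))
      map_add' := by
        intro p q
        refine Prod.ext ?_ rfl
        exact map_add e p.1 q.1
      map_smul' := by
        intro r p
        refine Prod.ext ?_ rfl
        exact map_smul e r p.1 }
  have h1 := Obt_comp' g _ h
  convert h1 using 1
  funext p
  obtain ⟨a, f⟩ := p
  show (if f = Pi.single a 1 then (1 : ℂ) else 0) =
    if (fun x => f (e.symm x)) = Pi.single (e a) 1 then 1 else 0
  have hiff : f = Pi.single a 1 ↔ (fun x => f (e.symm x)) = Pi.single (e a) 1 := by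
    constructor
    · rintro rfl
      funext x
      rw [Pi.single_apply, Pi.single_apply]
      by_cases hx : x = e a
      · rw [if_pos hx, if_pos]
        rw [hx, LinearEquiv.symm_apply_apply]
      · rw [if_neg hx, if_neg]
        intro h2
        apply hx
        rw [← h2, LinearEquiv.apply_symm_apply]
    · intro h2
      funext y
      have h3 := congrFun h2 (e y)
      simp only [LinearEquiv.symm_apply_apply] at h3
      rw [h3, Pi.single_apply, Pi.single_apply]
      by_cases hy : y = a
      · rw [if_pos hy, if_pos (by rw [hy])]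
      · rw [if_neg hy, if_neg]
        intro h4
        exact hy (e.injective h4)
  by_cases h2 : f = Pi.single a 1
  · rw [if_pos h2, if_pos (hiff.1 h2)]
  · rw [if_neg h2, if_neg (fun h3 => h2 (hiff.2 h3))]


theorem k72_base {B : Type} [AddCommGroup B] [Module (ZMod 2) B] [Fintype B] [DecidableEq B]
    [Subsingleton B] : Obt 0 (hot (A := B)) := by
  have hd := IsS_delta' (E := B → ZMod 2)
  have ht := IsS_trans' (E := B → ZMod 2) (fun _ => 1) _ hd
  have hc := IsS_comp' (E := B → ZMod 2) (F := B × (B → ZMod 2))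
    (LinearMap.snd (ZMod 2) B (B → ZMod 2)) _ ht
  have h2 := Obt_IsS' _ hc
  have heq : hot (A := B) = fun p : B × (B → ZMod 2) =>
      if (LinearMap.snd (ZMod 2) B (B → ZMod 2)) p + (fun _ => (1 : ZMod 2)) = 0
        then (1 : ℂ) else 0 := by
    funext p
    obtain ⟨a, f⟩ := p
    have h11 : (1 : ZMod 2) + 1 = 0 := one_add_one_Z
    have hiff : f = Pi.single a 1 ↔ (f + fun _ => (1 : ZMod 2)) = 0 := by
      constructor
      · rintro rfl
        funext x
        have hx : x = a := Subsingleton.elim _ _
        subst hx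
        show (Pi.single x 1 : B → ZMod 2) x + 1 = 0
        rw [Pi.single_eq_same, h11]
      · intro h4
        funext x
        have hx : x = a := Subsingleton.elim _ _
        subst hx
        rw [Pi.single_eq_same]
        have h5 : f x + 1 = 0 := congrFun h4 x
        have h6 : f x + 1 + 1 = 1 := by rw [h5, zero_add]
        rw [add_assoc, h11, add_zero] at h6
        exact h6
    show (if f = Pi.single a 1 then (1 : ℂ) else 0) =
      if (f + fun _ => (1 : ZMod 2)) = 0 then 1 else 0
    by_cases h4 : f = Pi.single a 1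
    · rw [if_pos h4, if_pos (hiff.1 h4)]
    · rw [if_neg h4, if_neg (fun h5 => h4 (hiff.2 h5))]
  rw [heq]
  exact h2

/-- first coordinate and the others -/
def k72_equiv (l : ℕ) : (Fin (l + 1) → ZMod 2) ≃ₗ[ZMod 2] ZMod 2 × (Fin l → ZMod 2) where
  toFun f := (f 0, fun i => f i.succ)
  map_add' _ _ := rfl
  map_smul' _ _ := rfl
  invFun p := Fin.cons p.1 p.2
  left_inv f := by
    funext i
    refine Fin.cases ?_ (fun i => ?_) i <;> rfl
  right_inv p := rfl

/-- TARGET 3.  HINT: induction on l; l = 0: hot is a pullback of a delta function after a translation (IsS);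
step with Fin.consLinearEquiv or similar; the cost is 18 * (2^l - 1). -/
theorem Obt_hot (l : ℕ) : Obt (18 * 2 ^ l) (hot (A := Fin l → ZMod 2)) := by
  have key : ∀ l : ℕ, Obt (18 * (2 ^ l - 1)) (hot (A := Fin l → ZMod 2)) := by
    intro l
    induction l with
    | zero =>
      have h3 : 18 * (2 ^ 0 - 1) = 0 := rfl
      rw [h3]
      exact k72_base
    | succ l ih =>
      have h1 := Obt_hot_step ih
      have h2 := Obt_hot_equiv (k72_equiv l) h1
      refine Obt_mono' ?_ _ h2
      have hc : Fintype.card (Fin l → ZMod 2) = 2 ^ l := by simp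
      rw [hc, pow_succ]
      have h3 : 1 ≤ 2 ^ l := Nat.one_le_two_pow
      omega
  exact Obt_mono' (Nat.mul_le_mul_left 18 (Nat.sub_le _ _)) _ (key l)

end

end H650SR

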