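import Mathlib
import Pool.Agent.Helper650_Stab.Base
import Pool.Agent.Helper650_Stab.Clif
import Pool.Agent.Helper650_Stab.P1
import Pool.Agent.Helper650_Stab.P2
import Pool.Agent.Helper650_Stab.P3
import Pool.Agent.Helper650_Stab.J4
import Pool.Agent.Helper650_Stab.J5
import Pool.Agent.Helper650_Stab.J8
import Pool.Agent.Helper650_Stab.J9
import Pool.Agent.Helper650_Stab.J10
import Pool.Agent.Helper650_Stab.J12
import Pool.Agent.Helper650_Stab.J12b
import Pool.Agent.Helper650_Stab.J13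

/-! # The stabilizer rank of the powers of `e_0 + √2 e_1` -/

namespace H650SR

open Finset

noncomputable section

theorem Obt_sign_l (l : ℕ) (Fn : (Fin l → ZMod 2) × (Fin l → ZMod 2) → ZMod 2) :
    Obt (36 * 2 ^ l) (fun p : (Fin l → ZMod 2) × (Fin l → ZMod 2) => sgn (Fn p)) := by
  have h1 : Obt (18 * 2 ^ l) (hot' (A := Fin l → ZMod 2)) := Obt_hot l
  have h2 := Obt_sign h1 Fn
  exact Obt_mono (by omega) _ h2

theorem rank_lower (l d r : ℕ) (hd : 36 * 2 ^ l ≤ d) (T : Fin r → (Fin d → ZMod 2) → ℂ)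
    (hT : ∀ i, IsS (T i)) (h : ∀ y : Fin d → ZMod 2, ∏ j, vv (y j) = ∑ i, T i y) :
    4 ^ l ≤ r * (8 * l ^ 2 + 6 * l + 1) := by
  obtain ⟨D, hD, R, hcard, hR⟩ := exists_repr (E := (Fin l → ZMod 2) × (Fin l → ZMod 2))
  have hn : Module.finrank (ZMod 2) ((Fin l → ZMod 2) × (Fin l → ZMod 2)) = 2 * l := by
    rw [Module.finrank_prod]
    simp
    ring
  rw [hn] at hcard
  have key := repr_count (X := (Fin l → ZMod 2) × (Fin l → ZMod 2)) r D R 1 one_ne_zero (by
    intro Fn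
    obtain ⟨T', hT', hs⟩ := Obt_apply hd _ (Obt_sign_l l Fn) T hT h
    choose δ c hδ using fun i => hR (T' i) (hT' i)
    refine ⟨δ, c, fun x => ?_⟩
    rw [one_mul]
    have := hs x
    rw [this]
    exact Finset.sum_congr rfl fun i _ => hδ i x)
  have hX : Fintype.card ((Fin l → ZMod 2) × (Fin l → ZMod 2)) = 4 ^ l := by
    simp [Fintype.card_prod, ZMod.card]
    rw [← mul_pow]
    norm_num
  rw [hX] at key
  have h2 : (Fintype.card D) ^ r * 2 ^ r ≤ 2 ^ (r * (8 * l ^ 2 + 6 * l + 1)) := by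
    calc (Fintype.card D) ^ r * 2 ^ r ≤ (2 ^ (2 * (2 * l) ^ 2 + 3 * (2 * l))) ^ r * 2 ^ r :=
          Nat.mul_le_mul_right _ (Nat.pow_le_pow_left hcard r)
      _ = 2 ^ (r * (8 * l ^ 2 + 6 * l + 1)) := by
          rw [← pow_mul, ← pow_add]
          congr 1
          ring
  exact (Nat.pow_le_pow_iff_right (by norm_num)).1 (key.trans h2)

theorem vpow_eq (d : ℕ) (y : Fin d → ZMod 2) : vpow d y = ∏ j, vv (y j) := by
  unfold vpow
  refine Finset.prod_congr rfl fun j _ => ?_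
  rcases zc (y j) with h | h
  · rw [h]
    simp [vv]
  · rw [h]
    have h1 : (1 : ZMod 2) ≠ 0 := by decide
    simp only [vv, if_neg h1]
    rfl

theorem stabR_lower (l d : ℕ) (hd : 36 * 2 ^ l ≤ d) :
    4 ^ l ≤ stabR (vpow d) * (8 * l ^ 2 + 6 * l + 1) := by
  obtain ⟨α, t, ht, h⟩ := stabR_spec d (vpow d)
  refine rank_lower l d (stabR (vpow d)) hd (fun i => fun x => α i * t i x)
    (fun i => IsS_smul _ _ (stab_IsS d (t i) (ht i))) ?_
  have h2 : ∀ y : Fin d → Fin 2, vpow d y = ∑ i, α i * t i y := by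
    intro y
    have h3 := congrFun h y
    rw [Finset.sum_apply] at h3
    exact h3
  intro y
  rw [← vpow_eq d y]
  exact h2 y

theorem main : (∃ c : ℝ, 0 < c ∧
      ∀ d : ℕ, 2 ≤ d → c * (d : ℝ) ^ 2 / (Real.log d) ^ 2 ≤ (stabR (vpow d) : ℝ)) ∧
    Filter.Tendsto (fun d : ℕ => (stabR (vpow d) : ℝ) / d) Filter.atTop Filter.atTop := by
  obtain ⟨c, hc, h⟩ := asym1 (fun d => stabR (vpow d)) (fun d => one_le_stabR d)
    (fun l d hd => stabR_lower l d hd)
  exact ⟨⟨c, hc, h⟩, asym2 _ c hc h⟩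

end

end H650SR
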